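import Pool.Agent.Lib_helper61.APX.Int

set_option autoImplicit false

/-!
# Duals of `G - v`
-/

open Classical

namespace Pool.Agent.Lib_helper61.APX

variable {V E : Type} [Fintype V] [Fintype E]

omit [Fintype V] in
theorem net_away {k : Type} [Field k] (a b : E → V) (v : V) (φ : E → k)
    (h : ∀ e, ¬ (a e ≠ v ∧ b e ≠ v) → φ e = 0) (Y : Set V) :
    net a b φ Y = net (fun e : Away a b v => a e.1) (fun e => b e.1) (fun e => φ e.1) Y := by
  unfold net
  rw [← Fintype.sum_subtype_add_sum_subtype (fun e => a e ≠ v ∧ b e ≠ v)]
  have h2 : ∑ e : {e // ¬ (a e ≠ v ∧ b e ≠ v)}, φ e.1 *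
      (ind k Y (a e.1) - ind k Y (b e.1)) = 0 := by
    apply Finset.sum_eq_zero
    intro e _
    rw [h e.1 e.2, zero_mul]
  rw [h2, add_zero]

omit [Fintype V] in
theorem dual_of_away {γ : ℕ} (a b : E → V) (v : V)
    (h : HasDual γ (fun e : Away a b v => a e.1) (fun e => b e.1)) : DualOfDefect γ a b v := by
  obtain ⟨F, hF, l, r, hcut, hspan⟩ := h
  set l' : E → Option F := fun e => if h : a e ≠ v ∧ b e ≠ v then some (l ⟨e, h⟩) else none
    with hl'
  set r' : E → Option F := fun e => if h : a e ≠ v ∧ b e ≠ v then some (r ⟨e, h⟩) else none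
    with hr'
  have hval : ∀ (y : Option F → ZMod 2) (e : Away a b v), dualCut a b v l' r' y e.1 =
      y (some (l e)) + y (some (r e)) := by
    intro y e
    unfold dualCut
    rw [if_neg (by
      rw [not_or]
      exact e.2), hl', hr']
    simp only [dif_pos e.2]
  refine ⟨Option F, inferInstance, l', r', ?_, ?_⟩
  · intro y
    refine ⟨fun e he => ?_, ?_⟩
    · unfold dualCut
      rw [if_pos he]
    · rw [isFlow_iff]
      intro x
      rw [net_away a b v _ (by
        intro e he
        unfold dualCut
        rw [if_pos]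
        by_contra hcon
        rw [not_or] at hcon
        exact he hcon)]
      have h1 := (isFlow_iff _ _ _).1 (hcut fun f => y (some f)) x
      simp only [hval]
      exact h1
  · intro s hs
    obtain ⟨c, y, hc, hy⟩ := hspan (fun i e => s i e.1) (by
      intro i
      rw [isFlow_iff]
      intro x
      rw [← net_away a b v (s i) (by
        intro e he
        apply (hs i).1
        by_contra hcon
        rw [not_or] at hcon
        exact he hcon)]
      exact (isFlow_iff _ _ _).1 (hs i).2 x)
    refine ⟨c, fun o => o.elim 0 y, hc, ?_⟩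
    intro e
    by_cases he : a e ≠ v ∧ b e ≠ v
    · rw [hval _ ⟨e, he⟩]
      exact hy ⟨e, he⟩
    · have he' : a e = v ∨ b e = v := by
        by_contra hcon
        rw [not_or] at hcon
        exact he hcon
      have h1 : dualCut a b v l' r' (fun o => o.elim 0 y) e = 0 := by
        unfold dualCut
        rw [if_pos he']
      rw [h1]
      apply Finset.sum_eq_zero
      intro i _
      rw [(hs i).1 e he', mul_zero]

end Pool.Agent.Lib_helper61.APX
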