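import Pool.Agent.Lib_helper61.APX.Walk

set_option autoImplicit false

/-!
# The vertices at distance at most three from `v`
-/

open Classical

namespace Pool.Agent.Lib_helper61.APX

variable {V E : Type}

/-- the walk that starts with the edge `e` at `v` and is continued according to `ω` -/
noncomputable def wst (a b : E → V) (nx : V → E → Bool → E) (v : V) (e : E) (ω : ℕ → Bool) :
    ℕ → V × E
  | 0 => (v, e)
  | k + 1 => (oth a b (wst a b nx v e ω k).1 (wst a b nx v e ω k).2,
      nx (oth a b (wst a b nx v e ω k).1 (wst a b nx v e ω k).2) (wst a b nx v e ω k).2 (ω k))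

section

variable {a b : E → V} {nx : V → E → Bool → E}

theorem wst_inc (hnx : ∀ p e, Inc a b p e → ∀ i, Inc a b p (nx p e i) ∧ nx p e i ≠ e) (v : V)
    (e : E) (he : Inc a b v e) (ω : ℕ → Bool) (k : ℕ) :
    Inc a b (wst a b nx v e ω k).1 (wst a b nx v e ω k).2 := by
  induction k with
  | zero => exact he
  | succ k ih => exact (hnx _ _ (inc_of_J (J_oth ih)) (ω k)).1

theorem wst_nbw (hnx : ∀ p e, Inc a b p e → ∀ i, Inc a b p (nx p e i) ∧ nx p e i ≠ e) (v : V)
    (e : E) (he : Inc a b v e) (ω : ℕ → Bool) (ℓ : ℕ) :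
    NBW a b (fun k => (wst a b nx v e ω k).1) (fun k => (wst a b nx v e ω k).2) ℓ := by
  refine ⟨fun k _ => J_oth (wst_inc hnx v e he ω k), fun k _ => ?_⟩
  exact ((hnx _ _ (inc_of_J (J_oth (wst_inc hnx v e he ω k))) (ω k)).2).symm

/-- lengths of the walks -/
def len : Unit ⊕ Bool ⊕ (Bool × Bool) → ℕ
  | Sum.inl _ => 1
  | Sum.inr (Sum.inl _) => 2
  | Sum.inr (Sum.inr _) => 3

/-- choices for the walks -/
def om : Unit ⊕ Bool ⊕ (Bool × Bool) → ℕ → Bool
  | Sum.inl _ => fun _ => false
  | Sum.inr (Sum.inl s) => fun _ => s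
  | Sum.inr (Sum.inr s) => fun k => if k = 0 then s.1 else s.2

theorem len_le (u : Unit ⊕ Bool ⊕ (Bool × Bool)) : 1 ≤ len u ∧ len u ≤ 3 := by
  rcases u with u | u | u
  · exact ⟨le_refl 1, by show 1 ≤ 3; norm_num⟩
  · exact ⟨by show 1 ≤ 2; norm_num, by show 2 ≤ 3; norm_num⟩
  · exact ⟨by show 1 ≤ 3; norm_num, le_refl 3⟩

theorem om_eq (u u' : Unit ⊕ Bool ⊕ (Bool × Bool)) (h : len u = len u')
    (h' : ∀ k, k + 1 < len u → om u k = om u' k) : u = u' := by
  rcases u with u | u | u <;> rcases u' with u' | u' | u'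
  · rfl
  · exact absurd h (by show ¬ (1 = 2); norm_num)
  · exact absurd h (by show ¬ (1 = 3); norm_num)
  · exact absurd h (by show ¬ (2 = 1); norm_num)
  · have := h' 0 (by show 0 + 1 < 2; norm_num)
    have h2 : u = u' := this
    rw [h2]
  · exact absurd h (by show ¬ (2 = 3); norm_num)
  · exact absurd h (by show ¬ (3 = 1); norm_num)
  · exact absurd h (by show ¬ (3 = 2); norm_num)
  · have h0 := h' 0 (by show 0 + 1 < 3; norm_num)
    have h1 := h' 1 (by show 1 + 1 < 3; norm_num)
    have h2 : u.1 = u'.1 := h0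
    have h3 : u.2 = u'.2 := h1
    rw [Prod.ext h2 h3]

theorem wst_det (hnx2 : ∀ p e, Inc a b p e → nx p e false ≠ nx p e true)
    (hnx : ∀ p e, Inc a b p e → ∀ i, Inc a b p (nx p e i) ∧ nx p e i ≠ e) (v : V)
    (e : E) (he : Inc a b v e) (ω ω' : ℕ → Bool) (L : ℕ)
    (h : ∀ k, k < L → (wst a b nx v e ω k).2 = (wst a b nx v e ω' k).2) :
    (∀ k, k < L → (wst a b nx v e ω k).1 = (wst a b nx v e ω' k).1) ∧
      ∀ k, k + 1 < L → ω k = ω' k := by
  have h1 : ∀ k, k < L → (wst a b nx v e ω k).1 = (wst a b nx v e ω' k).1 := by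
    intro k
    induction k with
    | zero => intro _; rfl
    | succ k ih =>
      intro hk
      show oth a b (wst a b nx v e ω k).1 (wst a b nx v e ω k).2 =
        oth a b (wst a b nx v e ω' k).1 (wst a b nx v e ω' k).2
      rw [ih (by omega), h k (by omega)]
  refine ⟨h1, fun k hk => ?_⟩
  have h2 : nx (oth a b (wst a b nx v e ω k).1 (wst a b nx v e ω k).2)
      (wst a b nx v e ω k).2 (ω k) = nx (oth a b (wst a b nx v e ω' k).1
      (wst a b nx v e ω' k).2) (wst a b nx v e ω' k).2 (ω' k) := h (k + 1) hk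
  rw [← h1 k (by omega), ← h k (by omega)] at h2
  have h3 := hnx2 _ _ (inc_of_J (J_oth (wst_inc hnx v e he ω k)))
  by_contra hne
  cases h4 : ω k with
  | false =>
    cases h5 : ω' k with
    | false => exact hne (h4.trans h5.symm)
    | true =>
      rw [h4, h5] at h2
      exact h3 h2
  | true =>
    cases h5 : ω' k with
    | true => exact hne (h4.trans h5.symm)
    | false =>
      rw [h4, h5] at h2
      exact h3 h2.symm

end

/-- edges at `p` -/
noncomputable def star [Fintype E] (a b : E → V) (p : V) : Finset E :=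
  Finset.univ.filter fun e => Inc a b p e

theorem mem_star [Fintype E] {a b : E → V} {p : V} {e : E} : e ∈ star a b p ↔ Inc a b p e := by
  unfold star
  rw [Finset.mem_filter]
  exact ⟨fun h => h.2, fun h => ⟨Finset.mem_univ _, h⟩⟩

theorem ball_count [Fintype V] [Fintype E] {a b : E → V} (hnl : ∀ e, a e ≠ b e)
    (hno : NoCC a b) (v : V) (hdeg : ∀ p, 3 ≤ (star a b p).card) :
    7 * (star a b v).card + 1 ≤ Fintype.card V := by
  have hex : ∀ p e, ∃ f : Bool → E, Inc a b p e →
      (∀ i, Inc a b p (f i) ∧ f i ≠ e) ∧ f false ≠ f true := by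
    intro p e
    by_cases h : Inc a b p e
    · have h1 : 1 < ((star a b p).erase e).card := by
        rw [Finset.card_erase_of_mem (mem_star.2 h)]
        have := hdeg p
        omega
      obtain ⟨f, hf, g, hg, hfg⟩ := Finset.one_lt_card.1 h1
      rw [Finset.mem_erase, mem_star] at hf hg
      refine ⟨fun i => if i then g else f, fun _ => ⟨?_, ?_⟩⟩
      · intro i
        cases i
        · exact ⟨hf.2, hf.1⟩
        · exact ⟨hg.2, hg.1⟩
      · exact hfg
    · exact ⟨fun _ => e, fun h' => absurd h' h⟩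
  choose nx hnx0 using hex
  have hnx : ∀ p e, Inc a b p e → ∀ i, Inc a b p (nx p e i) ∧ nx p e i ≠ e :=
    fun p e h => (hnx0 p e h).1
  have hnx2 : ∀ p e, Inc a b p e → nx p e false ≠ nx p e true := fun p e h => (hnx0 p e h).2
  let Φ : Option ({e : E // e ∈ star a b v} × (Unit ⊕ Bool ⊕ (Bool × Bool))) → V := fun o =>
    match o with
    | none => v
    | some w => (wst a b nx v w.1.1 (om w.2) (len w.2)).1
  have hinj : Function.Injective Φ := by
    have key : ∀ w : {e : E // e ∈ star a b v} × (Unit ⊕ Bool ⊕ (Bool × Bool)),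
        (wst a b nx v w.1.1 (om w.2) (len w.2)).1 ≠ v := by
      intro w h
      have := closed_empty hnl hno (wst_nbw hnx v w.1.1 (mem_star.1 w.1.2) (om w.2) (len w.2))
        h.symm (by have := (len_le w.2).2; omega)
      have h2 := (len_le w.2).1
      omega
    intro o o' h
    cases o with
    | none =>
      cases o' with
      | none => rfl
      | some w => exact absurd h.symm (key w)
    | some w =>
      cases o' with
      | none => exact absurd h (key w)
      | some w' =>
        obtain ⟨h1, h2⟩ := two_walks hnl hno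
          (x := fun k => (wst a b nx v w.1.1 (om w.2) k).1)
          (y := fun k => (wst a b nx v w'.1.1 (om w'.2) k).1)
          (c := fun k => (wst a b nx v w.1.1 (om w.2) k).2)
          (d := fun k => (wst a b nx v w'.1.1 (om w'.2) k).2) rfl (len w.2) (len w'.2)
          (by have := (len_le w.2).2; have := (len_le w'.2).2; omega)
          (wst_nbw hnx v w.1.1 (mem_star.1 w.1.2) (om w.2) (len w.2))
          (wst_nbw hnx v w'.1.1 (mem_star.1 w'.1.2) (om w'.2) (len w'.2)) h
        have h3 : w.1.1 = w'.1.1 := h2 0 (len_le w.2).1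
        have h4 : w.1 = w'.1 := Subtype.ext h3
        have h5 := (wst_det hnx2 hnx v w.1.1 (mem_star.1 w.1.2) (om w.2) (om w'.2) (len w.2)
          (by
            intro k hk
            have h6 : (wst a b nx v w.1.1 (om w.2) k).2 = (wst a b nx v w'.1.1 (om w'.2) k).2 :=
              h2 k hk
            rw [← h3] at h6
            exact h6)).2
        have h6 := om_eq w.2 w'.2 h1 h5
        rw [Prod.ext h4 h6]
  have h1 := Fintype.card_le_of_injective Φ hinj
  rw [Fintype.card_option, Fintype.card_prod, Fintype.card_sum, Fintype.card_sum,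
    Fintype.card_prod, Fintype.card_bool, Fintype.card_unit, Fintype.card_coe] at h1
  omega

end Pool.Agent.Lib_helper61.APX
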