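import Mathlib

set_option autoImplicit false

/-!
# Boundaries, cuts and the duality between them

A finite multigraph is a pair of maps `a b : E → V` (tail and head of each edge).
-/

open Classical

namespace Pool.Agent.Lib_helper61.APX

section NoV

variable {V E k : Type} [Fintype E] [Field k]

/-- indicator -/
noncomputable def ind (k : Type) [Field k] (Y : Set V) (x : V) : k := if x ∈ Y then 1 else 0

/-- net value leaving `Y` -/
noncomputable def net (a b : E → V) (φ : E → k) (Y : Set V) : k :=
  ∑ e, φ e * (ind k Y (a e) - ind k Y (b e))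

/-- `Y` is closed under the edges of `K` -/
def Closed (a b : E → V) (K : Set E) (Y : Set V) : Prop := ∀ e ∈ K, (a e ∈ Y ↔ b e ∈ Y)

theorem net_add (a b : E → V) (φ ψ : E → k) (Y : Set V) :
    net a b (fun e => φ e + ψ e) Y = net a b φ Y + net a b ψ Y := by
  unfold net
  rw [← Finset.sum_add_distrib]
  exact Finset.sum_congr rfl fun e _ => by ring

theorem net_sub (a b : E → V) (φ ψ : E → k) (Y : Set V) :
    net a b (fun e => φ e - ψ e) Y = net a b φ Y - net a b ψ Y := by
  unfold net
  rw [← Finset.sum_sub_distrib]
  exact Finset.sum_congr rfl fun e _ => by ring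

theorem net_smul (a b : E → V) (t : k) (φ : E → k) (Y : Set V) :
    net a b (fun e => t * φ e) Y = t * net a b φ Y := by
  unfold net
  rw [Finset.mul_sum]
  exact Finset.sum_congr rfl fun e _ => by ring

theorem net_single (a b : E → V) (e : E) (Y : Set V) :
    net a b (Pi.single e (1 : k)) Y = ind k Y (a e) - ind k Y (b e) := by
  unfold net
  rw [Finset.sum_eq_single e]
  · simp
  · intro f _ hf
    simp [Pi.single_eq_of_ne hf]
  · intro h
    exact absurd (Finset.mem_univ _) h

theorem net_closed (a b : E → V) (K : Set E) (ψ : E → k) (hψ : ∀ e, e ∉ K → ψ e = 0) (Y : Set V)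
    (hY : Closed a b K Y) : net a b ψ Y = 0 := by
  unfold net
  apply Finset.sum_eq_zero
  intro e _
  by_cases he : e ∈ K
  · have := hY e he
    unfold ind
    by_cases h1 : a e ∈ Y
    · rw [if_pos h1, if_pos (this.1 h1)]
      ring
    · rw [if_neg h1, if_neg (fun h => h1 (this.2 h))]
      ring
  · rw [hψ e he]
    ring

end NoV

variable {V E k : Type} [Fintype V] [Fintype E] [Field k]

theorem ind_eq_sum (Y : Set V) (z : V) : ind k Y z = ∑ x, ind k Y x * ind k {x} z := by
  rw [Finset.sum_eq_single z]
  · simp [ind]
  · intro x _ hx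
    have : z ∉ ({x} : Set V) := fun h => hx (by simpa using h.symm)
    simp [ind, this]
  · intro h
    exact absurd (Finset.mem_univ _) h

theorem net_eq_sum (a b : E → V) (φ : E → k) (Y : Set V) :
    net a b φ Y = ∑ x, ind k Y x * net a b φ {x} := by
  unfold net
  simp only [Finset.mul_sum]
  rw [Finset.sum_comm]
  refine Finset.sum_congr rfl fun e _ => ?_
  rw [ind_eq_sum Y (a e), ind_eq_sum Y (b e), ← Finset.sum_sub_distrib, Finset.mul_sum]
  exact Finset.sum_congr rfl fun x _ => by ring

/-- the boundary operator -/
noncomputable def bdL (a b : E → V) : (E → k) →ₗ[k] (V → k) where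
  toFun φ := fun x => net a b φ {x}
  map_add' φ ψ := by
    funext x
    exact net_add a b φ ψ {x}
  map_smul' t φ := by
    funext x
    exact net_smul a b t φ {x}

/-- **Duality**: `τ` is a boundary of a function supported in `K` iff it sums to zero over every
set closed under `K`. -/
theorem exists_boundary (a b : E → V) (K : Set E) (τ : V → k)
    (h : ∀ Y : Set V, Closed a b K Y → ∑ x, ind k Y x * τ x = 0) :
    ∃ ψ : E → k, (∀ e, e ∉ K → ψ e = 0) ∧ ∀ x, net a b ψ {x} = τ x := by
  let S : Submodule k (E → k) :=
    { carrier := {ψ | ∀ e, e ∉ K → ψ e = 0}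
      add_mem' := by
        intro x y hx hy e he
        simp [hx e he, hy e he]
      zero_mem' := by
        intro e _
        rfl
      smul_mem' := by
        intro c x hx e he
        simp [hx e he] }
  by_contra hcon
  have hτ : τ ∉ S.map (bdL a b) := by
    rintro ⟨ψ, hψ, hb⟩
    exact hcon ⟨ψ, hψ, fun x => congrFun hb x⟩
  obtain ⟨f, hf, hle⟩ := Submodule.exists_le_ker_of_notMem hτ
  set y : V → k := fun x => f (Pi.single x 1) with hy
  have hfs : ∀ g : V → k, f g = ∑ x, g x * y x := by
    intro g
    have h1 : g = ∑ x, g x • (Pi.single x (1 : k) : V → k) := by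
      funext z
      rw [Finset.sum_apply, Finset.sum_eq_single z]
      · simp
      · intro x _ hx
        simp [Pi.single_eq_of_ne hx.symm]
      · intro h
        exact absurd (Finset.mem_univ _) h
    conv_lhs => rw [h1]
    rw [map_sum]
    exact Finset.sum_congr rfl fun x _ => by rw [map_smul, smul_eq_mul]
  have hK : ∀ e ∈ K, y (a e) = y (b e) := by
    intro e he
    have h1 : bdL a b (Pi.single e (1 : k)) ∈ S.map (bdL a b) := by
      refine ⟨_, ?_, rfl⟩
      intro e' he'
      have : e' ≠ e := fun h => he' (h ▸ he)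
      exact Pi.single_eq_of_ne this _
    have h2 := hle h1
    rw [LinearMap.mem_ker, hfs] at h2
    have h3 : ∀ x, bdL a b (Pi.single e (1 : k)) x = ind k {x} (a e) - ind k {x} (b e) :=
      fun x => net_single a b e {x}
    simp only [h3, sub_mul, Finset.sum_sub_distrib] at h2
    have h4 : ∀ z, ∑ x, ind k {x} z * y x = y z := by
      intro z
      rw [Finset.sum_eq_single z]
      · simp [ind]
      · intro x _ hx
        have : z ∉ ({x} : Set V) := fun h => hx (by simpa using h.symm)
        simp [ind, this]
      · intro h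
        exact absurd (Finset.mem_univ _) h
    rw [h4, h4] at h2
    exact sub_eq_zero.1 h2
  apply hf
  rw [hfs]
  have h5 : ∑ x, τ x * y x = ∑ c ∈ Finset.univ.image y, ∑ x ∈ Finset.univ.filter (fun x => y x = c),
      τ x * y x := by
    exact (Finset.sum_fiberwise_of_maps_to
      (fun x _ => Finset.mem_image_of_mem y (Finset.mem_univ x)) (fun x => τ x * y x)).symm
  rw [h5]
  apply Finset.sum_eq_zero
  intro c _
  have h6 := h {x | y x = c} (by
    intro e he
    simp only [Set.mem_ofPred_eq]
    rw [hK e he])
  have h7 : ∑ x ∈ Finset.univ.filter (fun x => y x = c), τ x * y x =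
      c * ∑ x, ind k {x | y x = c} x * τ x := by
    rw [Finset.sum_filter, Finset.mul_sum]
    refine Finset.sum_congr rfl fun x _ => ?_
    unfold ind
    by_cases hx : y x = c
    · simp [hx]
      ring
    · simp [hx]
  rw [h7, h6, mul_zero]

/-- Extension of a flow of the graph with `K` contracted. -/
theorem extend (a b : E → V) (K : Set E) (φ : E → k)
    (h : ∀ Y : Set V, Closed a b K Y → net a b φ Y = 0) :
    ∃ ψ : E → k, (∀ e, e ∉ K → ψ e = φ e) ∧ ∀ x, net a b ψ {x} = 0 := by
  obtain ⟨χ, h1, h2⟩ := exists_boundary a b K (fun x => net a b φ {x}) (by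
    intro Y hY
    rw [← net_eq_sum]
    exact h Y hY)
  refine ⟨fun e => φ e - χ e, ?_, ?_⟩
  · intro e he
    simp only [h1 e he, sub_zero]
  · intro x
    rw [net_sub, h2, sub_self]

end Pool.Agent.Lib_helper61.APX
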