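import Pool.Agent.Lib_helper61.APX.Three

set_option autoImplicit false

/-!
# Circuits of length at most six are reducible
-/

open Classical

namespace Pool.Agent.Lib_helper61.APX

variable {V E : Type}

/-- a circuit -/
structure Circ (a b : E → V) (ℓ : ℕ) [NeZero ℓ] (x : Fin ℓ → V) (c : Fin ℓ → E) : Prop where
  step : ∀ i, (a (c i) = x i ∧ b (c i) = x (i + 1)) ∨ (b (c i) = x i ∧ a (c i) = x (i + 1))
  xinj : Function.Injective x
  cinj : Function.Injective c

/-- edges of the circuit with index outside `Ds` -/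
def KK {ℓ : ℕ} (c : Fin ℓ → E) (Ds : Finset (Fin ℓ)) : Set E := {e | ∃ i, i ∉ Ds ∧ c i = e}

/-- edges of the circuit with index in `Ds` -/
def DD {ℓ : ℕ} (c : Fin ℓ → E) (Ds : Finset (Fin ℓ)) : Set E := {e | ∃ i, i ∈ Ds ∧ c i = e}

theorem circ_cross {a b : E → V} {ℓ : ℕ} [NeZero ℓ] {x : Fin ℓ → V} {c : Fin ℓ → E}
    (h : Circ a b ℓ x c) (Y : Set V) (i : Fin ℓ) :
    (a (c i) ∈ Y ↔ b (c i) ∈ Y) ↔ (x i ∈ Y ↔ x (i + 1) ∈ Y) := by
  rcases h.step i with ⟨h1, h2⟩ | ⟨h1, h2⟩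
  · rw [h1, h2]
  · rw [h1, h2]
    exact ⟨fun h => h.symm, fun h => h.symm⟩

variable [Fintype V] [Fintype E]

theorem circ_flow {a b : E → V} {ℓ : ℕ} [NeZero ℓ] {x : Fin ℓ → V} {c : Fin ℓ → E}
    (h : Circ a b ℓ x c) : ∃ χ : E → ZMod 5, (∀ y, net a b χ {y} = 0) ∧
      (∀ i, χ (c i) = 1 ∨ χ (c i) = -1) ∧ ∀ e, (∀ i, c i ≠ e) → χ e = 0 := by
  have h1 : ∀ i, ∃ s : ZMod 5, (s = 1 ∨ s = -1) ∧ ∀ Y : Set V,
      s * (ind (ZMod 5) Y (a (c i)) - ind (ZMod 5) Y (b (c i))) =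
        ind (ZMod 5) Y (x i) - ind (ZMod 5) Y (x (i + 1)) := by
    intro i
    rcases h.step i with ⟨h1, h2⟩ | ⟨h1, h2⟩
    · exact ⟨1, Or.inl rfl, fun Y => by rw [h1, h2, one_mul]⟩
    · exact ⟨-1, Or.inr rfl, fun Y => by rw [h1, h2]; ring⟩
  choose s hs1 hs2 using h1
  have hval : ∀ i, ∑ j, (if c j = c i then s j else 0) = s i := by
    intro i
    rw [Finset.sum_eq_single i]
    · rw [if_pos rfl]
    · intro j _ hj
      rw [if_neg (fun h' => hj (h.cinj h'))]
    · intro h'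
      exact absurd (Finset.mem_univ _) h'
  refine ⟨fun e => ∑ j, (if c j = e then s j else 0), ?_, ?_, ?_⟩
  · intro y
    unfold net
    have h2 : ∀ e, (∑ j, (if c j = e then s j else 0)) *
        (ind (ZMod 5) {y} (a e) - ind (ZMod 5) {y} (b e)) =
        ∑ j, (if c j = e then s j * (ind (ZMod 5) {y} (a e) - ind (ZMod 5) {y} (b e)) else 0) := by
      intro e
      rw [Finset.sum_mul]
      refine Finset.sum_congr rfl fun j _ => ?_
      split_ifs
      · rfl
      · rw [zero_mul]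
    simp only [h2]
    rw [Finset.sum_comm]
    have h3 : ∀ j, ∑ e, (if c j = e then
        s j * (ind (ZMod 5) {y} (a e) - ind (ZMod 5) {y} (b e)) else 0) =
        ind (ZMod 5) {y} (x j) - ind (ZMod 5) {y} (x (j + 1)) := by
      intro j
      rw [← hs2 j {y}, Finset.sum_eq_single (c j)]
      · rw [if_pos rfl]
      · intro e _ he
        rw [if_neg (fun h' => he h'.symm)]
      · intro h'
        exact absurd (Finset.mem_univ _) h'
    simp only [h3]
    rw [Finset.sum_sub_distrib, sub_eq_zero]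
    exact (Equiv.sum_comp (Equiv.addRight (1 : Fin ℓ)) (fun j => ind (ZMod 5) {y} (x j))).symm
  · intro i
    show (∑ j, (if c j = c i then s j else 0)) = 1 ∨ (∑ j, (if c j = c i then s j else 0)) = -1
    rw [hval]
    exact hs1 i
  · intro e he
    apply Finset.sum_eq_zero
    intro j _
    rw [if_neg (he j)]

theorem circ_reduce {γ N : ℕ} (ih : IH γ N) (a b : E → V) (v : V)
    (hN : Fintype.card V + Fintype.card E ≤ N + 1) (hemb : DualOfDefect γ a b v)
    {ℓ : ℕ} [NeZero ℓ] {x : Fin ℓ → V} {c : Fin ℓ → E} (h : Circ a b ℓ x c)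
    (Ds : Finset (Fin ℓ)) (hD : Ds.Nonempty) (hK : (Dsᶜ).card ≤ 3)
    (hcut : ∀ Y : Set V, Closed a b (KK c Ds) Y → Y.Nonempty → Yᶜ.Nonempty →
      2 ≤ (qcut a b (KK c Ds) (DD c Ds) Y).card) : NZ a b := by
  obtain ⟨i0, hi0⟩ := hD
  obtain ⟨φ, hφ1, hφ2, hφ3⟩ := minor_nz ih a b v hN hemb (KK c Ds) (DD c Ds)
    ⟨c i0, Or.inr ⟨i0, hi0, rfl⟩⟩ hcut
  obtain ⟨ψ, hψ1, hψ2⟩ := extend a b (KK c Ds) φ hφ3
  obtain ⟨χ, hχ1, hχ2, hχ3⟩ := circ_flow h
  have hex : ∃ t : ZMod 5, t ∉ insert (0 : ZMod 5) ((Dsᶜ).image fun i => -ψ (c i) * χ (c i)) := by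
    by_contra hcon
    push Not at hcon
    have h1 : (insert (0 : ZMod 5) ((Dsᶜ).image fun i => -ψ (c i) * χ (c i))) = Finset.univ :=
      Finset.eq_univ_of_forall hcon
    have h2 : (insert (0 : ZMod 5) ((Dsᶜ).image fun i => -ψ (c i) * χ (c i))).card ≤ 4 :=
      (Finset.card_insert_le _ _).trans (by
        have := Finset.card_image_le (s := Dsᶜ) (f := fun i => -ψ (c i) * χ (c i))
        omega)
    rw [h1, Finset.card_univ, ZMod.card] at h2
    omega
  obtain ⟨t, ht⟩ := hex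
  rw [Finset.mem_insert, not_or] at ht
  refine ⟨fun e => ψ e + t * χ e, ?_, ?_⟩
  · intro y
    rw [net_add, net_smul, hψ2, hχ1, mul_zero, add_zero]
  · intro e
    show ψ e + t * χ e ≠ 0
    by_cases he : ∃ i, c i = e
    · obtain ⟨i, rfl⟩ := he
      have hsq : χ (c i) * χ (c i) = 1 := by
        rcases hχ2 i with h' | h' <;> rw [h'] <;> decide
      by_cases hi : i ∈ Ds
      · have hnk : c i ∉ KK c Ds := by
          rintro ⟨j, hj, hji⟩
          exact hj (h.cinj hji ▸ hi)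
        rw [hψ1 _ hnk, hφ2 _ (Or.inr ⟨i, hi, rfl⟩), zero_add]
        intro h'
        rcases mul_eq_zero.1 h' with h'' | h''
        · exact ht.1 h''
        · rw [h'', mul_zero] at hsq
          exact absurd hsq (by decide)
      · intro h'
        apply ht.2
        rw [Finset.mem_image]
        refine ⟨i, Finset.mem_compl.2 hi, ?_⟩
        have h2 : t * χ (c i) = - ψ (c i) := by
          rw [eq_neg_iff_add_eq_zero, add_comm]
          exact h'
        show - ψ (c i) * χ (c i) = t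
        rw [← h2, mul_assoc, hsq, mul_one]
    · push Not at he
      have hnk : e ∉ KK c Ds := by
        rintro ⟨j, _, hj⟩
        exact he j hj
      have hnd : e ∉ DD c Ds := by
        rintro ⟨j, _, hj⟩
        exact he j hj
      rw [hχ3 e he, mul_zero, add_zero, hψ1 e hnk]
      exact hφ1 e hnk hnd

theorem qcut_bound {a b : E → V} {ℓ : ℕ} {c : Fin ℓ → E} (Ds : Finset (Fin ℓ)) (Y : Set V)
    (hc : Closed a b (KK c Ds) Y) (T : Finset E) (hT : ∀ i ∈ Ds, c i ∈ cut a b Y → c i ∈ T)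
    (h : 2 + T.card ≤ (cut a b Y).card) : 2 ≤ (qcut a b (KK c Ds) (DD c Ds) Y).card := by
  have h1 : cut a b Y ⊆ qcut a b (KK c Ds) (DD c Ds) Y ∪ T := by
    intro e he
    rw [Finset.mem_union]
    by_cases hd : e ∈ DD c Ds
    · right
      obtain ⟨i, hi, rfl⟩ := hd
      exact hT i hi he
    · left
      rw [mem_cut] at he
      rw [mem_qcut]
      exact ⟨⟨fun h' => he (hc e h'), hd⟩, he⟩
  have h2 := (Finset.card_le_card h1).trans (Finset.card_union_le _ _)
  omega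

/-- the hypotheses that remain after the reductions of small cuts -/
structure Cuts (a b : E → V) : Prop where
  three : ∀ Y : Set V, Y.Nonempty → Yᶜ.Nonempty → 3 ≤ (cut a b Y).card
  four : ∀ Y : Set V, (∃ p q, p ≠ q ∧ p ∈ Y ∧ q ∈ Y) → (∃ p q, p ≠ q ∧ p ∉ Y ∧ q ∉ Y) →
    4 ≤ (cut a b Y).card

theorem kk_closed {a b : E → V} {ℓ : ℕ} [NeZero ℓ] {x : Fin ℓ → V} {c : Fin ℓ → E}
    (h : Circ a b ℓ x c) (Ds : Finset (Fin ℓ)) (Y : Set V) (hc : Closed a b (KK c Ds) Y)
    (i : Fin ℓ) (hi : i ∉ Ds) : x i ∈ Y ↔ x (i + 1) ∈ Y :=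
  (circ_cross h Y i).1 (hc _ ⟨i, hi, rfl⟩)

theorem no_circ2 {γ N : ℕ} (ih : IH γ N) (a b : E → V) (v : V)
    (hN : Fintype.card V + Fintype.card E ≤ N + 1) (hemb : DualOfDefect γ a b v)
    (hC : Cuts a b) {x : Fin 2 → V} {c : Fin 2 → E} (h : Circ a b 2 x c) : NZ a b := by
  refine circ_reduce ih a b v hN hemb h {0} ⟨0, by simp⟩ (by decide) ?_
  intro Y hc hY hY'
  have h1 := kk_closed h {0} Y hc 1 (by decide)
  rw [show (1 : Fin 2) + 1 = 0 from rfl] at h1
  refine qcut_bound {0} Y hc ∅ ?_ (by have := hC.three Y hY hY'; simp; omega)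
  intro i hi hcr
  rw [Finset.mem_singleton] at hi
  rw [mem_cut, circ_cross h Y i, hi, show (0 : Fin 2) + 1 = 1 from rfl] at hcr
  exact absurd h1.symm hcr

theorem no_circ3 {γ N : ℕ} (ih : IH γ N) (a b : E → V) (v : V)
    (hN : Fintype.card V + Fintype.card E ≤ N + 1) (hemb : DualOfDefect γ a b v)
    (hC : Cuts a b) {x : Fin 3 → V} {c : Fin 3 → E} (h : Circ a b 3 x c) : NZ a b := by
  refine circ_reduce ih a b v hN hemb h {0} ⟨0, by simp⟩ (by decide) ?_
  intro Y hc hY hY'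
  have h1 := kk_closed h {0} Y hc 1 (by decide)
  have h2 := kk_closed h {0} Y hc 2 (by decide)
  rw [show (1 : Fin 3) + 1 = 2 from rfl] at h1
  rw [show (2 : Fin 3) + 1 = 0 from rfl] at h2
  refine qcut_bound {0} Y hc ∅ ?_ (by have := hC.three Y hY hY'; simp; omega)
  intro i hi hcr
  rw [Finset.mem_singleton] at hi
  rw [mem_cut, circ_cross h Y i, hi, show (0 : Fin 3) + 1 = 1 from rfl] at hcr
  exact absurd (h1.trans h2).symm hcr

theorem no_circ4 {γ N : ℕ} (ih : IH γ N) (a b : E → V) (v : V)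
    (hN : Fintype.card V + Fintype.card E ≤ N + 1) (hemb : DualOfDefect γ a b v)
    (hC : Cuts a b) {x : Fin 4 → V} {c : Fin 4 → E} (h : Circ a b 4 x c) : NZ a b := by
  refine circ_reduce ih a b v hN hemb h {0} ⟨0, by simp⟩ (by decide) ?_
  intro Y hc hY hY'
  have h1 := kk_closed h {0} Y hc 1 (by decide)
  have h2 := kk_closed h {0} Y hc 2 (by decide)
  have h3 := kk_closed h {0} Y hc 3 (by decide)
  rw [show (1 : Fin 4) + 1 = 2 from rfl] at h1
  rw [show (2 : Fin 4) + 1 = 3 from rfl] at h2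
  rw [show (3 : Fin 4) + 1 = 0 from rfl] at h3
  refine qcut_bound {0} Y hc ∅ ?_ (by have := hC.three Y hY hY'; simp; omega)
  intro i hi hcr
  rw [Finset.mem_singleton] at hi
  rw [mem_cut, circ_cross h Y i, hi, show (0 : Fin 4) + 1 = 1 from rfl] at hcr
  exact absurd ((h1.trans h2).trans h3).symm hcr

theorem four_of_pairs {a b : E → V} (hC : Cuts a b) (Y : Set V) {p q p' q' : V} (h1 : p ≠ q)
    (h2 : p' ≠ q') (hpq : p ∈ Y ↔ q ∈ Y) (hpq' : p' ∈ Y ↔ q' ∈ Y) (hd : ¬ (p ∈ Y ↔ p' ∈ Y)) :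
    4 ≤ (cut a b Y).card := by
  by_cases hp : p ∈ Y
  · have hp' : p' ∉ Y := fun h => hd (iff_of_true hp h)
    exact hC.four Y ⟨p, q, h1, hp, hpq.1 hp⟩ ⟨p', q', h2, hp', fun h => hp' (hpq'.2 h)⟩
  · have hp' : p' ∈ Y := by
      by_contra h
      exact hd (iff_of_false hp h)
    exact hC.four Y ⟨p', q', h2, hp', hpq'.1 hp'⟩ ⟨p, q, h1, hp, fun h => hp (hpq.2 h)⟩

theorem no_circ5 {γ N : ℕ} (ih : IH γ N) (a b : E → V) (v : V)
    (hN : Fintype.card V + Fintype.card E ≤ N + 1) (hemb : DualOfDefect γ a b v)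
    (hC : Cuts a b) {x : Fin 5 → V} {c : Fin 5 → E} (h : Circ a b 5 x c) : NZ a b := by
  refine circ_reduce ih a b v hN hemb h {0, 2} ⟨0, by simp⟩ (by decide) ?_
  intro Y hc hY hY'
  have h1 := kk_closed h {0, 2} Y hc 1 (by decide)
  have h3 := kk_closed h {0, 2} Y hc 3 (by decide)
  have h4 := kk_closed h {0, 2} Y hc 4 (by decide)
  rw [show (1 : Fin 5) + 1 = 2 from rfl] at h1
  rw [show (3 : Fin 5) + 1 = 4 from rfl] at h3
  rw [show (4 : Fin 5) + 1 = 0 from rfl] at h4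
  by_cases h0 : x 0 ∈ Y ↔ x 1 ∈ Y
  · refine qcut_bound {0, 2} Y hc ∅ ?_ (by have := hC.three Y hY hY'; simp; omega)
    intro i hi hcr
    rw [Finset.mem_insert, Finset.mem_singleton] at hi
    rw [mem_cut, circ_cross h Y i] at hcr
    rcases hi with rfl | rfl
    · exact absurd h0 hcr
    · rw [show (2 : Fin 5) + 1 = 3 from rfl] at hcr
      exact absurd ((h1.symm.trans h0.symm).trans (h3.trans h4).symm) hcr
  · have h5 := four_of_pairs hC Y (h.xinj.ne (show (0 : Fin 5) ≠ 4 by decide))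
      (h.xinj.ne (show (1 : Fin 5) ≠ 2 by decide)) h4.symm h1 h0
    refine qcut_bound {0, 2} Y hc {c 0, c 2} ?_ (by
      have := Finset.card_le_two (a := c 0) (b := c 2)
      omega)
    intro i hi _
    rw [Finset.mem_insert, Finset.mem_singleton] at hi
    rcases hi with rfl | rfl <;> simp

theorem no_circ6 {γ N : ℕ} (ih : IH γ N) (a b : E → V) (v : V)
    (hN : Fintype.card V + Fintype.card E ≤ N + 1) (hemb : DualOfDefect γ a b v)
    (hC : Cuts a b) {x : Fin 6 → V} {c : Fin 6 → E} (h : Circ a b 6 x c) : NZ a b := by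
  refine circ_reduce ih a b v hN hemb h {0, 2, 4} ⟨0, by simp⟩ (by decide) ?_
  intro Y hc hY hY'
  have h1 := kk_closed h {0, 2, 4} Y hc 1 (by decide)
  have h3 := kk_closed h {0, 2, 4} Y hc 3 (by decide)
  have h5 := kk_closed h {0, 2, 4} Y hc 5 (by decide)
  rw [show (1 : Fin 6) + 1 = 2 from rfl] at h1
  rw [show (3 : Fin 6) + 1 = 4 from rfl] at h3
  rw [show (5 : Fin 6) + 1 = 0 from rfl] at h5
  have hcr0 := circ_cross h Y 0
  have hcr2 := circ_cross h Y 2
  have hcr4 := circ_cross h Y 4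
  rw [show (0 : Fin 6) + 1 = 1 from rfl] at hcr0
  rw [show (2 : Fin 6) + 1 = 3 from rfl] at hcr2
  rw [show (4 : Fin 6) + 1 = 5 from rfl] at hcr4
  have hmem : ∀ i ∈ ({0, 2, 4} : Finset (Fin 6)), i = 0 ∨ i = 2 ∨ i = 4 := by
    intro i hi
    simpa using hi
  by_cases h0 : x 0 ∈ Y ↔ x 1 ∈ Y
  · by_cases h2 : x 2 ∈ Y ↔ x 3 ∈ Y
    · refine qcut_bound {0, 2, 4} Y hc ∅ ?_ (by have := hC.three Y hY hY'; simp; omega)
      intro i hi hcr
      rw [mem_cut] at hcr
      rcases hmem i hi with rfl | rfl | rfl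
      · exact absurd (hcr0.2 h0) hcr
      · exact absurd (hcr2.2 h2) hcr
      · refine absurd (hcr4.2 ?_) hcr
        exact ((((h3.symm.trans h2.symm).trans h1.symm).trans h0.symm).trans h5.symm)
    · have h6 := four_of_pairs hC Y (h.xinj.ne (show (2 : Fin 6) ≠ 1 by decide))
        (h.xinj.ne (show (3 : Fin 6) ≠ 4 by decide)) h1.symm h3 h2
      refine qcut_bound {0, 2, 4} Y hc {c 2, c 4} ?_ (by
        have := Finset.card_le_two (a := c 2) (b := c 4)
        omega)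
      intro i hi hcr
      rw [mem_cut] at hcr
      rcases hmem i hi with rfl | rfl | rfl
      · exact absurd (hcr0.2 h0) hcr
      · simp
      · simp
  · have h6 := four_of_pairs hC Y (h.xinj.ne (show (0 : Fin 6) ≠ 5 by decide))
        (h.xinj.ne (show (1 : Fin 6) ≠ 2 by decide)) h5.symm h1 h0
    by_cases h2 : x 2 ∈ Y ↔ x 3 ∈ Y
    · refine qcut_bound {0, 2, 4} Y hc {c 0, c 4} ?_ (by
        have := Finset.card_le_two (a := c 0) (b := c 4)
        omega)
      intro i hi hcr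
      rw [mem_cut] at hcr
      rcases hmem i hi with rfl | rfl | rfl
      · simp
      · exact absurd (hcr2.2 h2) hcr
      · simp
    · refine qcut_bound {0, 2, 4} Y hc {c 0, c 2} ?_ (by
        have := Finset.card_le_two (a := c 0) (b := c 2)
        omega)
      intro i hi hcr
      rw [mem_cut] at hcr
      rcases hmem i hi with rfl | rfl | rfl
      · simp
      · simp
      · refine absurd (hcr4.2 ?_) hcr
        by_cases g0 : x 0 ∈ Y <;> by_cases g1 : x 1 ∈ Y <;> by_cases g3 : x 3 ∈ Y <;>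
          simp_all

end Pool.Agent.Lib_helper61.APX
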