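import Pool.Agent.Lib_helper61.APX.Main

set_option autoImplicit false

/-!
# Bridgeless graphs that need not be connected
-/

open Classical

namespace Pool.Agent.Lib_helper61.APX

variable {V E : Type} [Fintype V] [Fintype E]

/-- tails, with an additional edge from `v` -/
def oa (a : E → V) (v : V) : Option E → V := fun o => o.elim v a

/-- heads, with an additional edge to `z` -/
def ob (b : E → V) (z : V) : Option E → V := fun o => o.elim z b

theorem net_option {k : Type} [Field k] (a b : E → V) (v z : V) (φ : Option E → k)
    (h0 : φ none = 0) (Y : Set V) :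
    net (oa a v) (ob b z) φ Y = net a b (fun e => φ (some e)) Y := by
  unfold net
  rw [Fintype.sum_option, h0, zero_mul, zero_add]
  rfl

theorem emb_option {γ : ℕ} (a b : E → V) (v z : V) (e0 : E) (h : DualOfDefect γ a b v) :
    DualOfDefect γ (oa a v) (ob b z) v := by
  obtain ⟨F, hF, l, r, hcut, hspan⟩ := h
  refine ⟨F, hF, fun o => o.elim (l e0) l, fun o => o.elim (r e0) r, ?_, ?_⟩
  · intro y
    obtain ⟨h1, h2⟩ := hcut y
    have h0 : dualCut (oa a v) (ob b z) v (fun o => o.elim (l e0) l) (fun o => o.elim (r e0) r) y
        none = 0 := by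
      unfold dualCut
      exact if_pos (Or.inl rfl)
    refine ⟨?_, ?_⟩
    · intro o ho
      cases o with
      | none => exact h0
      | some e => exact h1 e ho
    · rw [isFlow_iff] at h2 ⊢
      intro x
      rw [net_option a b v z _ h0]
      exact h2 x
  · intro s hs
    have hs' : ∀ i, EvenSet a b v (fun e => s i (some e)) := by
      intro i
      obtain ⟨h1, h2⟩ := hs i
      refine ⟨fun e he => h1 (some e) he, ?_⟩
      rw [isFlow_iff] at h2 ⊢
      intro x
      rw [← h2 x, net_option a b v z _ (h1 none (Or.inl rfl))]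
    obtain ⟨c, y, hc, hy⟩ := hspan (fun i e => s i (some e)) hs'
    refine ⟨c, y, hc, ?_⟩
    intro o
    cases o with
    | none =>
      have h0 : dualCut (oa a v) (ob b z) v (fun o => o.elim (l e0) l)
          (fun o => o.elim (r e0) r) y none = 0 := by
        unfold dualCut
        exact if_pos (Or.inl rfl)
      rw [h0]
      apply Finset.sum_eq_zero
      intro i _
      rw [(hs i).1 none (Or.inl rfl), mul_zero]
    | some e => exact hy e

theorem nz_bridgeless {γ : ℕ} (hγ : γ ≤ 2) (n : ℕ) : ∀ (V E : Type) [Fintype V] [Fintype E]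
    (a b : E → V) (v : V), Fintype.card V ≤ n → Bridgeless a b → DualOfDefect γ a b v →
      NZ a b := by
  induction n with
  | zero =>
    intro V E _ _ a b v hn _ _
    have h1 : 0 < Fintype.card V := Fintype.card_pos_iff.2 ⟨v⟩
    omega
  | succ n ih =>
    intro V E _ _ a b v hn hbr hemb
    by_cases htec : TEC a b
    · exact main_tec hγ _ V E a b v (le_refl _) htec hemb
    by_cases hE : E → False
    · exact nz_of_empty a b hE
    push Not at hE
    obtain ⟨e0, -⟩ := hE
    unfold TEC at htec
    push Not at htec
    obtain ⟨Y1, hY1, hY1', hlt⟩ := htec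
    have hY1z : (cut a b Y1).card = 0 := by
      have := hbr Y1
      omega
    obtain ⟨Y, hvY, z, hzY, hYz⟩ : ∃ Y : Set V, v ∈ Y ∧ ∃ z, z ∉ Y ∧ (cut a b Y).card = 0 := by
      by_cases hv : v ∈ Y1
      · obtain ⟨z, hz⟩ := hY1'
        exact ⟨Y1, hv, z, hz, hY1z⟩
      · obtain ⟨z, hz⟩ := hY1
        exact ⟨Y1ᶜ, hv, z, fun h => h hz, by rw [cut_compl]; exact hY1z⟩
    have hvz : v ≠ z := fun h => hzY (h ▸ hvY)
    obtain ⟨K, hK⟩ : ∃ K : Set (Option E), ∀ o, o ∈ K ↔ o = none :=
      ⟨{none}, fun o => Iff.rfl⟩
    obtain ⟨D, hD⟩ : ∃ D : Set (Option E), ∀ o, o ∉ D := ⟨∅, fun o => Set.notMem_empty o⟩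
    have hemb' := emb_minor γ (oa a v) (ob b z) v K D (emb_option a b v z e0 hemb)
    haveI : Finite (QV (oa a v) (ob b z) K) := Quot.finite _
    haveI : Fintype (QV (oa a v) (ob b z) K) := Fintype.ofFinite _
    have hcard : Fintype.card (QV (oa a v) (ob b z) K) < Fintype.card V := by
      apply Fintype.card_lt_of_surjective_not_injective
        (Quot.mk (Rel (oa a v) (ob b z) K)) Quot.mk_surjective
      intro hinj
      exact hvz (hinj (Quot.sound ⟨none, (hK none).2 rfl, rfl, rfl⟩))
    have hsome : ∀ e : E, (some e : Option E) ∉ K ∧ (some e : Option E) ∉ D := by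
      intro e
      exact ⟨fun h => Option.some_ne_none e ((hK _).1 h), hD _⟩
    have hnone : (none : Option E) ∈ K := (hK none).2 rfl
    have hbr' : Bridgeless (qa (oa a v) (ob b z) K D) (qb (oa a v) (ob b z) K D) := by
      intro Y' hY'
      apply hbr (pre (oa a v) (ob b z) K Y')
      rw [← hY']
      symm
      refine Finset.card_bij' (fun (e : QE K D) _ => e.1.getD e0)
        (fun (e : E) _ => (⟨some e, hsome e⟩ : QE K D)) ?_ ?_ ?_ ?_
      · rintro ⟨o, ho⟩ hm
        cases o with
        | none => exact absurd hnone ho.1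
        | some e =>
          unfold cut at hm ⊢
          rw [Finset.mem_filter] at hm ⊢
          exact ⟨Finset.mem_univ _, hm.2⟩
      · intro e hm
        unfold cut at hm ⊢
        rw [Finset.mem_filter] at hm ⊢
        exact ⟨Finset.mem_univ _, hm.2⟩
      · rintro ⟨o, ho⟩ hm
        cases o with
        | none => exact absurd hnone ho.1
        | some e => rfl
      · intro e hm
        rfl
    obtain ⟨φ, hφ1, hφ2⟩ := ih (QV (oa a v) (ob b z) K) (QE K D)
      (qa (oa a v) (ob b z) K D) (qb (oa a v) (ob b z) K D) (Quot.mk _ v) (by omega)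
      hbr' hemb'
    have h0 : ext0 K D φ none = 0 := by
      unfold ext0
      rw [dif_neg]
      rintro ⟨h, _⟩
      exact h hnone
    set ψ : E → ZMod 5 := fun e => ext0 K D φ (some e) with hψ
    have hψ0 : ∀ e, ψ e ≠ 0 := by
      intro e
      show ext0 K D φ (some e) ≠ 0
      unfold ext0
      rw [dif_pos (hsome e)]
      exact hφ2 _
    have hcl : ∀ Z : Set V, (v ∈ Z ↔ z ∈ Z) → net a b ψ Z = 0 := by
      intro Z hZ
      obtain ⟨Z', rfl⟩ := exists_pre (oa a v) (ob b z) K Z (by
        intro o ho
        rw [hK] at ho
        subst ho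
        exact hZ)
      rw [← net_option a b v z _ h0, net_ext0]
      exact net_flow _ _ _ hφ1 Z'
    have hvnet : net a b ψ {v} = 0 := by
      have h1 : net a b ψ Y = 0 := by
        apply net_closed a b Set.univ ψ (fun e he => absurd (Set.mem_univ e) he)
        intro e _
        by_contra hcon
        have h2 : e ∈ cut a b Y := (mem_cut a b Y e).2 hcon
        rw [Finset.card_eq_zero.1 hYz] at h2
        exact Finset.notMem_empty e h2
      rw [net_eq_sum, Finset.sum_eq_single v] at h1
      · unfold ind at h1
        rw [if_pos hvY, one_mul] at h1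
        exact h1
      · intro x _ hx
        by_cases hxz : x = z
        · rw [hxz]
          unfold ind
          rw [if_neg hzY, zero_mul]
        · rw [hcl {x} ?_, mul_zero]
          rw [Set.mem_singleton_iff, Set.mem_singleton_iff]
          exact iff_of_false (fun h => hx h.symm) (fun h => hxz h.symm)
      · intro h
        exact absurd (Finset.mem_univ _) h
    refine ⟨ψ, ?_, hψ0⟩
    intro x
    by_cases hxv : x = v
    · rw [hxv]
      exact hvnet
    · by_cases hxz : x = z
      · subst hxz
        have h1 := hcl {v, x} (iff_of_true (Or.inl rfl) (Or.inr rfl))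
        rw [net_eq_sum, Finset.sum_eq_single x] at h1
        · unfold ind at h1
          rw [if_pos (show x ∈ ({v, x} : Set V) from Or.inr rfl), one_mul] at h1
          exact h1
        · intro y _ hy
          by_cases hyv : y = v
          · rw [hyv, hvnet, mul_zero]
          · have : y ∉ ({v, x} : Set V) := by
              rintro (h | h)
              · exact hyv h
              · exact hy h
            unfold ind
            rw [if_neg this, zero_mul]
        · intro h
          exact absurd (Finset.mem_univ _) h
      · apply hcl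
        rw [Set.mem_singleton_iff, Set.mem_singleton_iff]
        exact iff_of_false (fun h => hxv h.symm) (fun h => hxz h.symm)

end Pool.Agent.Lib_helper61.APX
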