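import Pool.Agent.Lib_helper61.APX.Notions

set_option autoImplicit false

/-!
# Auxiliary notions
-/

open Classical

namespace Pool.Agent.Lib_helper61.APX

variable {V E : Type} [Fintype E]

/-- `s` is an even set of edges of `G - v`. -/
def EvenSet (a b : E → V) (v : V) (s : E → ZMod 2) : Prop :=
  (∀ e, a e = v ∨ b e = v → s e = 0) ∧ IsFlow a b s

/-- The set of edges of `G - v` whose two faces `l e` and `r e` lie on different sides of the
set `y` of faces. -/
noncomputable def dualCut {F : Type} (a b : E → V) (v : V) (l r : E → F) (y : F → ZMod 2) :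
    E → ZMod 2 := fun e => if a e = v ∨ b e = v then 0 else y (l e) + y (r e)

/-- `G - v` has a dual graph of defect at most `γ`. -/
def DualOfDefect (γ : ℕ) (a b : E → V) (v : V) : Prop :=
  ∃ (F : Type) (_ : Fintype F) (l r : E → F),
    (∀ y : F → ZMod 2, EvenSet a b v (dualCut a b v l r y)) ∧
    ∀ s : Fin (γ + 1) → E → ZMod 2, (∀ i, EvenSet a b v (s i)) →
      ∃ (c : Fin (γ + 1) → ZMod 2) (y : F → ZMod 2), c ≠ 0 ∧
        ∀ e, ∑ i, c i * s i e = dualCut a b v l r y e

/-- At least two edges leave every set of vertices that is neither empty nor everything. -/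
def TEC (a b : E → V) : Prop :=
  ∀ Y : Set V, Y.Nonempty → Yᶜ.Nonempty → 2 ≤ (cut a b Y).card

end Pool.Agent.Lib_helper61.APX
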