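import Pool.Agent.Lib_helper61.APX.Minor

set_option autoImplicit false

/-!
# Minors of graphs with a dual of defect `γ`
-/

open Classical

namespace Pool.Agent.Lib_helper61.APX

variable {V E : Type} [Fintype V] [Fintype E]

theorem add_self2 (x : ZMod 2) : x + x = 0 := CharTwo.add_self_eq_zero x

theorem eq_of_add2 (x y : ZMod 2) (h : x + y = 0) : x = y := by
  have := CharTwo.add_self_eq_zero y
  have h2 : x + y = y + y := by rw [h, this]
  exact add_right_cancel h2

/-- edges of `G - v` deleted in the minor -/
def Del (a b : E → V) (v : V) (K D : Set E) : Set E :=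
  {e | a e ≠ v ∧ b e ≠ v ∧ e ∉ K ∧
    (e ∈ D ∨ (Quot.mk _ (a e) : QV a b K) = Quot.mk _ v ∨
      (Quot.mk _ (b e) : QV a b K) = Quot.mk _ v)}

theorem emb_minor (γ : ℕ) (a b : E → V) (v : V) (K D : Set E) (h : DualOfDefect γ a b v) :
    DualOfDefect γ (qa a b K D) (qb a b K D) (Quot.mk _ v) := by
  obtain ⟨F, hF, l, r, hcut, hspan⟩ := h
  let R : F → F → Prop := fun f g => ∃ e ∈ Del a b v K D, l e = f ∧ r e = g
  haveI : Finite (Quot R) := Quot.finite _
  haveI : Finite (QV a b K) := Quot.finite _
  haveI : Fintype (QV a b K) := Fintype.ofFinite _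
  refine ⟨Quot R, Fintype.ofFinite _, fun e => Quot.mk _ (l e.1), fun e => Quot.mk _ (r e.1),
    ?_, ?_⟩
  · intro y'
    set y : F → ZMod 2 := fun f => y' (Quot.mk _ f) with hy
    have hdel : ∀ e ∈ Del a b v K D, dualCut a b v l r y e = 0 := by
      intro e he
      unfold dualCut
      rw [if_neg (by
        rintro (h | h)
        · exact he.1 h
        · exact he.2.1 h)]
      have : (Quot.mk R (l e)) = Quot.mk R (r e) := Quot.sound ⟨e, he, rfl, rfl⟩
      rw [hy]
      show y' (Quot.mk _ (l e)) + y' (Quot.mk _ (r e)) = 0
      rw [this]
      exact add_self2 _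
    have hval : ∀ e : QE K D, ¬ (qa a b K D e = Quot.mk _ v ∨ qb a b K D e = Quot.mk _ v) →
        dualCut (qa a b K D) (qb a b K D) (Quot.mk _ v) (fun e => Quot.mk R (l e.1))
          (fun e => Quot.mk R (r e.1)) y' e = dualCut a b v l r y e.1 := by
      intro e he
      unfold dualCut
      rw [if_neg he, if_neg]
      rintro (h | h)
      · apply he
        left
        show Quot.mk _ (a e.1) = _
        rw [h]
      · apply he
        right
        show Quot.mk _ (b e.1) = _
        rw [h]
    refine ⟨?_, ?_⟩
    · intro e he
      unfold dualCut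
      rw [if_pos he]
    · rw [isFlow_iff]
      intro q
      obtain ⟨_, hfl⟩ := hcut y
      rw [isFlow_iff] at hfl
      by_cases hq : q = Quot.mk _ v
      · unfold net
        apply Finset.sum_eq_zero
        intro e _
        unfold ind
        simp only [Set.mem_singleton_iff]
        by_cases h1 : qa a b K D e = Quot.mk _ v ∨ qb a b K D e = Quot.mk _ v
        · unfold dualCut
          rw [if_pos h1, zero_mul]
        · rw [not_or] at h1
          rw [hq, if_neg h1.1, if_neg h1.2, sub_zero, mul_zero]
      · rw [← net_ext0]
        rw [← net_flow a b (dualCut a b v l r y) hfl (pre a b K {q})]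
        unfold net
        refine Finset.sum_congr rfl fun e _ => ?_
        by_cases hk : e ∈ K
        · have h1 := pre_closed a b K {q} e hk
          have h2 : ind (ZMod 2) (pre a b K {q}) (a e) = ind (ZMod 2) (pre a b K {q}) (b e) := by
            unfold ind
            simp only [h1]
          rw [h2, sub_self, mul_zero, mul_zero]
        · by_cases hD : e ∈ D
          · have h3 : ext0 K D (dualCut (qa a b K D) (qb a b K D) (Quot.mk _ v)
                (fun e => Quot.mk R (l e.1)) (fun e => Quot.mk R (r e.1)) y') e = 0 := by
              unfold ext0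
              rw [dif_neg]
              rintro ⟨_, h⟩
              exact h hD
            have h4 : dualCut a b v l r y e = 0 := by
              by_cases hv : a e = v ∨ b e = v
              · unfold dualCut
                rw [if_pos hv]
              · rw [not_or] at hv
                exact hdel e ⟨hv.1, hv.2, hk, Or.inl hD⟩
            rw [h3, h4]
          · have h3 : ext0 K D (dualCut (qa a b K D) (qb a b K D) (Quot.mk _ v)
                (fun e => Quot.mk R (l e.1)) (fun e => Quot.mk R (r e.1)) y') e =
                dualCut (qa a b K D) (qb a b K D) (Quot.mk _ v)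
                (fun e => Quot.mk R (l e.1)) (fun e => Quot.mk R (r e.1)) y' ⟨e, hk, hD⟩ := by
              unfold ext0
              rw [dif_pos ⟨hk, hD⟩]
            rw [h3]
            by_cases hv' : qa a b K D ⟨e, hk, hD⟩ = Quot.mk _ v ∨
                qb a b K D ⟨e, hk, hD⟩ = Quot.mk _ v
            · have h5 : dualCut a b v l r y e = 0 := by
                by_cases hv : a e = v ∨ b e = v
                · unfold dualCut
                  rw [if_pos hv]
                · rw [not_or] at hv
                  exact hdel e ⟨hv.1, hv.2, hk, Or.inr hv'⟩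
              rw [h5]
              unfold dualCut
              rw [if_pos hv']
            · rw [hval _ hv']
  · intro s hs
    choose t ht1 ht2 using fun i => lift_even a b v K D (s i) (hs i)
    obtain ⟨c, y, hc, hy⟩ := hspan t ht1
    have hnk : ∀ e, e ∉ K → e ∉ KH a b v K := fun e he h => he h.1
    have hR : ∀ f g, R f g → y f = y g := by
      rintro f g ⟨e, he, rfl, rfl⟩
      have h1 := hy e
      have h2 : ∑ i, c i * t i e = 0 := by
        apply Finset.sum_eq_zero
        intro i _
        rw [ht2 i e (hnk e he.2.2.1)]
        unfold ext0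
        split_ifs with h
        · rcases he.2.2.2 with h' | h'
          · exact absurd h' h.2
          · rw [(hs i).1 ⟨e, h⟩ h', mul_zero]
        · rw [mul_zero]
      rw [h2] at h1
      unfold dualCut at h1
      rw [if_neg (by
        rintro (h | h)
        · exact he.1 h
        · exact he.2.1 h)] at h1
      exact eq_of_add2 _ _ h1.symm
    refine ⟨c, fun q => Quot.lift y hR q, hc, ?_⟩
    intro e
    by_cases hv' : qa a b K D e = Quot.mk _ v ∨ qb a b K D e = Quot.mk _ v
    · unfold dualCut
      rw [if_pos hv']
      apply Finset.sum_eq_zero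
      intro i _
      rw [(hs i).1 e hv', mul_zero]
    · have h1 := hy e.1
      have h2 : ∀ i, t i e.1 = s i e := by
        intro i
        rw [ht2 i e.1 (hnk _ e.2.1)]
        unfold ext0
        rw [dif_pos e.2]
      simp only [h2] at h1
      rw [h1]
      unfold dualCut
      rw [if_neg hv', if_neg]
      rintro (h | h)
      · apply hv'
        left
        show Quot.mk _ (a e.1) = _
        rw [h]
      · apply hv'
        right
        show Quot.mk _ (b e.1) = _
        rw [h]

end Pool.Agent.Lib_helper61.APX
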