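import Pool.Agent.Lib_helper61.APX.Ball

set_option autoImplicit false

/-!
# Dimension of the space of even sets, number of faces
-/

open Classical Module

namespace Pool.Agent.Lib_helper61.APX

section abstract

variable {M : Type} [AddCommGroup M] [Module (ZMod 2) M] [FiniteDimensional (ZMod 2) M]

theorem finrank_le_of_dep {γ : ℕ} (Z C : Submodule (ZMod 2) M)
    (h : ∀ s : Fin (γ + 1) → M, (∀ i, s i ∈ Z) → ∃ c : Fin (γ + 1) → ZMod 2, c ≠ 0 ∧
      ∑ i, c i • s i ∈ C) : finrank (ZMod 2) Z ≤ finrank (ZMod 2) C + γ := by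
  set π : Z →ₗ[ZMod 2] (M ⧸ C) := C.mkQ.comp Z.subtype with hπ
  have h1 := LinearMap.finrank_range_add_finrank_ker π
  have h2 : finrank (ZMod 2) (LinearMap.ker π) ≤ finrank (ZMod 2) C := by
    let f : LinearMap.ker π →ₗ[ZMod 2] C :=
      LinearMap.codRestrict C (Z.subtype.comp (LinearMap.ker π).subtype) (by
        intro x
        have hx : C.mkQ ((x.1 : Z) : M) = 0 := x.2
        rw [Submodule.mkQ_apply, Submodule.Quotient.mk_eq_zero] at hx
        exact hx)
    apply LinearMap.finrank_le_finrank_of_injective (f := f)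
    intro x y hxy
    have h3 : ((x.1 : Z) : M) = ((y.1 : Z) : M) := congrArg (fun z : C => (z : M)) hxy
    exact Subtype.ext (Subtype.ext h3)
  have h3 : finrank (ZMod 2) (LinearMap.range π) ≤ γ := by
    by_contra hcon
    have h4 : γ + 1 ≤ finrank (ZMod 2) (LinearMap.range π) := by omega
    set bb := Module.finBasis (ZMod 2) (LinearMap.range π) with hbb
    have hli : LinearIndependent (ZMod 2) (fun i : Fin (γ + 1) => bb (Fin.castLE h4 i)) :=
      bb.linearIndependent.comp _ (Fin.castLE_injective h4)
    have hpre : ∀ i : Fin (γ + 1), ∃ z : Z, π z = (bb (Fin.castLE h4 i) : M ⧸ C) :=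
      fun i => (bb (Fin.castLE h4 i)).2
    choose z hz using hpre
    obtain ⟨c, hc, hmem⟩ := h (fun i => (z i : M)) (fun i => (z i).2)
    apply hc
    rw [Fintype.linearIndependent_iff] at hli
    have h5 : ∑ i, c i • bb (Fin.castLE h4 i) = 0 := by
      apply Subtype.ext
      rw [Submodule.coe_sum, Submodule.coe_zero]
      have h6 : C.mkQ (∑ i, c i • (z i : M)) = 0 := by
        rw [Submodule.mkQ_apply, Submodule.Quotient.mk_eq_zero]
        exact hmem
      rw [map_sum] at h6
      rw [← h6]
      refine Finset.sum_congr rfl fun i _ => ?_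
      rw [Submodule.coe_smul, ← hz i, map_smul]
      rfl
    funext i
    exact hli c h5 i
  omega

end abstract

variable {V E : Type} [Fintype V] [Fintype E]

/-- the space of even sets of edges of `G - v` -/
def Zs (a b : E → V) (v : V) : Submodule (ZMod 2) (E → ZMod 2) where
  carrier := {s | EvenSet a b v s}
  add_mem' := by
    rintro s t ⟨h1, h2⟩ ⟨h3, h4⟩
    refine ⟨fun e he => ?_, ?_⟩
    · rw [Pi.add_apply, h1 e he, h3 e he, add_zero]
    · rw [isFlow_iff] at h2 h4 ⊢
      intro x
      have := net_add a b s t {x}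
      rw [h2 x, h4 x, add_zero] at this
      exact this
  zero_mem' := by
    refine ⟨fun e _ => rfl, ?_⟩
    rw [isFlow_iff]
    intro x
    unfold net
    apply Finset.sum_eq_zero
    intro e _
    rw [Pi.zero_apply, zero_mul]
  smul_mem' := by
    rintro c s ⟨h1, h2⟩
    refine ⟨fun e he => ?_, ?_⟩
    · rw [Pi.smul_apply, h1 e he, smul_zero]
    · rw [isFlow_iff] at h2 ⊢
      intro x
      have := net_smul a b c s {x}
      rw [h2 x, mul_zero] at this
      exact this

/-- cuts of the dual graph -/
noncomputable def Dm {F : Type} (a b : E → V) (v : V) (l r : E → F) :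
    (F → ZMod 2) →ₗ[ZMod 2] (E → ZMod 2) where
  toFun y := dualCut a b v l r y
  map_add' y z := by
    funext e
    show dualCut a b v l r (y + z) e = dualCut a b v l r y e + dualCut a b v l r z e
    unfold dualCut
    by_cases h : a e = v ∨ b e = v
    · rw [if_pos h, if_pos h, if_pos h, add_zero]
    · rw [if_neg h, if_neg h, if_neg h, Pi.add_apply, Pi.add_apply]
      ring
  map_smul' c y := by
    funext e
    show dualCut a b v l r (c • y) e = c * dualCut a b v l r y e
    unfold dualCut
    by_cases h : a e = v ∨ b e = v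
    · rw [if_pos h, if_pos h, mul_zero]
    · rw [if_neg h, if_neg h, Pi.smul_apply, Pi.smul_apply, smul_eq_mul, smul_eq_mul]
      ring

theorem Dm_apply {F : Type} (a b : E → V) (v : V) (l r : E → F) (y : F → ZMod 2) :
    Dm a b v l r y = dualCut a b v l r y := rfl

theorem Zs_le {γ : ℕ} {F : Type} (a b : E → V) (v : V) (l r : E → F)
    (h : ∀ s : Fin (γ + 1) → E → ZMod 2, (∀ i, EvenSet a b v (s i)) →
      ∃ (c : Fin (γ + 1) → ZMod 2) (y : F → ZMod 2), c ≠ 0 ∧
        ∀ e, ∑ i, c i * s i e = dualCut a b v l r y e) :
    finrank (ZMod 2) (Zs a b v) ≤ finrank (ZMod 2) (LinearMap.range (Dm a b v l r)) + γ := by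
  apply finrank_le_of_dep
  intro s hs
  obtain ⟨c, y, hc, hy⟩ := h s hs
  refine ⟨c, hc, y, ?_⟩
  funext e
  rw [Dm_apply, ← hy e, Finset.sum_apply]
  rfl

/-- faces with a nonempty boundary -/
noncomputable def Fp {F : Type} [Fintype F] (a b : E → V) (v : V) (l r : E → F) : Finset F :=
  Finset.univ.filter fun f => dualCut a b v l r (Pi.single f 1) ≠ 0

theorem mem_Fp {F : Type} [Fintype F] (a b : E → V) (v : V) (l r : E → F) (f : F) :
    f ∈ Fp a b v l r ↔ dualCut a b v l r (Pi.single f 1) ≠ 0 := by
  unfold Fp
  rw [Finset.mem_filter]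
  exact ⟨fun h => h.2, fun h => ⟨Finset.mem_univ _, h⟩⟩

theorem Dm_eq_sum {F : Type} [Fintype F] (a b : E → V) (v : V) (l r : E → F) (y : F → ZMod 2) :
    Dm a b v l r y = ∑ f, y f • Dm a b v l r (Pi.single f 1) := by
  have h1 : y = ∑ f, y f • (Pi.single f (1 : ZMod 2) : F → ZMod 2) := by
    funext z
    rw [Finset.sum_apply, Finset.sum_eq_single z]
    · simp
    · intro x _ hx
      simp [Pi.single_eq_of_ne hx.symm]
    · intro h
      exact absurd (Finset.mem_univ _) h
  conv_lhs => rw [h1]
  rw [map_sum]
  exact Finset.sum_congr rfl fun f _ => map_smul _ _ _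

theorem Dm_const {F : Type} (a b : E → V) (v : V) (l r : E → F) (y : F → ZMod 2) (t : ZMod 2) :
    Dm a b v l r y = Dm a b v l r (fun f => y f - t) := by
  funext e
  rw [Dm_apply, Dm_apply]
  unfold dualCut
  by_cases h : a e = v ∨ b e = v
  · rw [if_pos h, if_pos h]
  · rw [if_neg h, if_neg h]
    have : t + t = 0 := add_self2 t
    linear_combination this

theorem range_le_zero {F : Type} [Fintype F] (a b : E → V) (v : V) (l r : E → F)
    (h : Fp a b v l r = ∅) : finrank (ZMod 2) (LinearMap.range (Dm a b v l r)) = 0 := by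
  have h1 : LinearMap.range (Dm a b v l r) = ⊥ := by
    rw [eq_bot_iff]
    rintro _ ⟨y, rfl⟩
    rw [Dm_eq_sum]
    rw [Submodule.mem_bot]
    apply Finset.sum_eq_zero
    intro f _
    have h2 : f ∉ Fp a b v l r := by
      rw [h]
      exact Finset.notMem_empty f
    rw [mem_Fp, not_not] at h2
    rw [Dm_apply, h2, smul_zero]
  rw [h1, finrank_bot]

theorem range_le {F : Type} [Fintype F] (a b : E → V) (v : V) (l r : E → F)
    (h : (Fp a b v l r).Nonempty) :
    finrank (ZMod 2) (LinearMap.range (Dm a b v l r)) + 1 ≤ (Fp a b v l r).card := by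
  obtain ⟨f0, hf0⟩ := h
  have h1 : LinearMap.range (Dm a b v l r) ≤ Submodule.span (ZMod 2)
      ((((Fp a b v l r).erase f0).image fun f => Dm a b v l r (Pi.single f 1) :
        Finset (E → ZMod 2)) : Set (E → ZMod 2)) := by
    rintro _ ⟨y, rfl⟩
    rw [Dm_const a b v l r y (y f0), Dm_eq_sum]
    apply Submodule.sum_mem
    intro f _
    by_cases hf : f = f0
    · rw [hf, sub_self, zero_smul]
      exact Submodule.zero_mem _
    · by_cases hf' : f ∈ Fp a b v l r
      · apply Submodule.smul_mem
        apply Submodule.subset_span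
        rw [Finset.mem_coe, Finset.mem_image]
        exact ⟨f, Finset.mem_erase.2 ⟨hf, hf'⟩, rfl⟩
      · rw [mem_Fp, not_not] at hf'
        rw [Dm_apply, hf', smul_zero]
        exact Submodule.zero_mem _
  have h2 := Submodule.finrank_mono h1
  have h3 := finrank_span_finset_le_card (R := ZMod 2)
    (((Fp a b v l r).erase f0).image fun f => Dm a b v l r (Pi.single f 1))
  have h4 := Finset.card_image_le (s := (Fp a b v l r).erase f0)
    (f := fun f => Dm a b v l r (Pi.single f 1))
  rw [Finset.card_erase_of_mem hf0] at h4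
  have h5 : 0 < (Fp a b v l r).card := Finset.card_pos.2 ⟨f0, hf0⟩
  rw [Set.finrank] at h3
  omega

/-- edges of `G - v` -/
noncomputable def EH (a b : E → V) (v : V) : Finset E :=
  Finset.univ.filter fun e => ¬ (a e = v ∨ b e = v)

theorem mem_EH (a b : E → V) (v : V) (e : E) : e ∈ EH a b v ↔ ¬ (a e = v ∨ b e = v) := by
  unfold EH
  rw [Finset.mem_filter]
  exact ⟨fun h => h.2, fun h => ⟨Finset.mem_univ _, h⟩⟩

/-- extension by zero -/
noncomputable def exL (P : E → Prop) : ({e : E // P e} → ZMod 2) →ₗ[ZMod 2] (E → ZMod 2) where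
  toFun s := fun e => if h : P e then s ⟨e, h⟩ else 0
  map_add' s t := by
    funext e
    show (if h : P e then (s + t) ⟨e, h⟩ else 0) =
      (if h : P e then s ⟨e, h⟩ else 0) + (if h : P e then t ⟨e, h⟩ else 0)
    by_cases h : P e
    · rw [dif_pos h, dif_pos h, dif_pos h]
      rfl
    · rw [dif_neg h, dif_neg h, dif_neg h, add_zero]
  map_smul' c s := by
    funext e
    show (if h : P e then (c • s) ⟨e, h⟩ else 0) = c * (if h : P e then s ⟨e, h⟩ else 0)
    by_cases h : P e
    · rw [dif_pos h, dif_pos h]
      rfl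
    · rw [dif_neg h, dif_neg h, mul_zero]

theorem exL_of (P : E → Prop) (s : {e : E // P e} → ZMod 2) (e : E) (h : P e) :
    exL P s e = s ⟨e, h⟩ := by
  show (if h : P e then s ⟨e, h⟩ else 0) = _
  rw [dif_pos h]

theorem exL_not (P : E → Prop) (s : {e : E // P e} → ZMod 2) (e : E) (h : ¬ P e) :
    exL P s e = 0 := by
  show (if h : P e then s ⟨e, h⟩ else 0) = _
  rw [dif_neg h]

theorem le_Zs (a b : E → V) (v : V) (hV : 2 ≤ Fintype.card V) :
    (EH a b v).card + 2 ≤ finrank (ZMod 2) (Zs a b v) + Fintype.card V := by
  set P : E → Prop := fun e => e ∈ EH a b v with hP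
  let T : ({e : E // P e} → ZMod 2) →ₗ[ZMod 2] ({x : V // x ≠ v} → ZMod 2) :=
    { toFun := fun s x => net a b (exL P s) {x.1}
      map_add' := by
        intro s t
        funext x
        rw [map_add]
        exact net_add a b (exL P s) (exL P t) {x.1}
      map_smul' := by
        intro c s
        funext x
        rw [map_smul]
        exact net_smul a b c (exL P s) {x.1} }
  let S : ({x : V // x ≠ v} → ZMod 2) →ₗ[ZMod 2] ZMod 2 :=
    { toFun := fun y => ∑ x, y x
      map_add' := by
        intro y z
        exact Finset.sum_add_distrib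
      map_smul' := by
        intro c y
        exact (Finset.mul_sum _ _ _).symm }
  have hT := LinearMap.finrank_range_add_finrank_ker T
  have hS := LinearMap.finrank_range_add_finrank_ker S
  rw [Module.finrank_fintype_fun_eq_card] at hT hS
  have h1 : Fintype.card {e : E // P e} = (EH a b v).card := Fintype.card_coe _
  have h2 : Fintype.card {x : V // x ≠ v} = Fintype.card V - 1 := by
    rw [Fintype.card_subtype_compl, Fintype.card_subtype_eq]
  have h3 : LinearMap.range T ≤ LinearMap.ker S := by
    rintro _ ⟨s, rfl⟩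
    rw [LinearMap.mem_ker]
    show ∑ x : {x : V // x ≠ v}, net a b (exL P s) {x.1} = 0
    have h4 : net a b (exL P s) {x | x ≠ v} = 0 := by
      apply net_closed a b {e | P e} (exL P s)
      · intro e he
        exact exL_not P s e he
      · intro e he
        have he' : ¬ (a e = v ∨ b e = v) := (mem_EH a b v e).1 he
        rw [not_or] at he'
        exact iff_of_true he'.1 he'.2
    rw [← h4, net_eq_sum, ← Fintype.sum_subtype_add_sum_subtype (fun x => x ≠ v)]
    have h5 : ∑ x : {x : V // ¬ x ≠ v}, ind (ZMod 2) {x | x ≠ v} x.1 *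
        net a b (exL P s) {x.1} = 0 := by
      apply Finset.sum_eq_zero
      intro x _
      have : x.1 ∉ {x : V | x ≠ v} := x.2
      unfold ind
      rw [if_neg this, zero_mul]
    rw [h5, add_zero]
    refine Finset.sum_congr rfl fun x _ => ?_
    have : x.1 ∈ {x : V | x ≠ v} := x.2
    unfold ind
    rw [if_pos this, one_mul]
  have h4 := Submodule.finrank_mono h3
  have h5 : 1 ≤ finrank (ZMod 2) (LinearMap.range S) := by
    rw [Nat.one_le_iff_ne_zero, ← Nat.pos_iff_ne_zero, Module.finrank_pos_iff_exists_ne_zero]
    obtain ⟨x0, hx0⟩ : ∃ x0 : V, x0 ≠ v := by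
      have : 1 < Fintype.card V := by omega
      exact Fintype.exists_ne_of_one_lt_card this v
    refine ⟨⟨S (Pi.single ⟨x0, hx0⟩ 1), ⟨_, rfl⟩⟩, ?_⟩
    intro h
    have h6 : S (Pi.single ⟨x0, hx0⟩ 1) = 0 := congrArg Subtype.val h
    have h7 : S (Pi.single ⟨x0, hx0⟩ 1) = 1 := by
      show ∑ x, (Pi.single ⟨x0, hx0⟩ 1 : {x : V // x ≠ v} → ZMod 2) x = 1
      rw [Finset.sum_eq_single ⟨x0, hx0⟩]
      · simp
      · intro x _ hx
        exact Pi.single_eq_of_ne hx _
      · intro h
        exact absurd (Finset.mem_univ _) h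
    rw [h6] at h7
    exact absurd h7 (by decide)
  have h6 : finrank (ZMod 2) (LinearMap.ker T) ≤ finrank (ZMod 2) (Zs a b v) := by
    let f : LinearMap.ker T →ₗ[ZMod 2] Zs a b v :=
      LinearMap.codRestrict (Zs a b v) ((exL P).comp (LinearMap.ker T).subtype) (by
        intro s
        have hs : T s.1 = 0 := s.2
        show EvenSet a b v (exL P s.1)
        refine ⟨fun e he => ?_, ?_⟩
        · apply exL_not
          show ¬ e ∈ EH a b v
          rw [mem_EH, not_not]
          exact he
        · rw [isFlow_iff]
          intro x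
          by_cases hx : x = v
          · rw [hx]
            unfold net
            apply Finset.sum_eq_zero
            intro e _
            by_cases he : a e = v ∨ b e = v
            · rw [exL_not P s.1 e (by
                show ¬ e ∈ EH a b v
                rw [mem_EH, not_not]
                exact he), zero_mul]
            · rw [not_or] at he
              unfold ind
              rw [if_neg (by rw [Set.mem_singleton_iff]; exact he.1),
                if_neg (by rw [Set.mem_singleton_iff]; exact he.2), sub_zero, mul_zero]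
          · exact congrFun hs ⟨x, hx⟩)
    apply LinearMap.finrank_le_finrank_of_injective (f := f)
    intro s t hst
    have h7 : exL P s.1 = exL P t.1 := congrArg Subtype.val hst
    apply Subtype.ext
    funext e
    have h8 := congrFun h7 e.1
    rw [exL_of P s.1 e.1 e.2, exL_of P t.1 e.1 e.2] at h8
    exact h8
  omega

theorem faces_count {F : Type} [Fintype F] (a b : E → V) (v : V) (l r : E → F)
    (hcut : ∀ y : F → ZMod 2, EvenSet a b v (dualCut a b v l r y))
    (h7 : ∀ s : E → ZMod 2, EvenSet a b v s → s ≠ 0 →
      7 ≤ (Finset.univ.filter fun e => s e ≠ 0).card) :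
    7 * (Fp a b v l r).card ≤ 2 * (EH a b v).card := by
  have h1 : ∑ f ∈ Fp a b v l r, (Finset.bipartiteAbove
      (fun f e => dualCut a b v l r (Pi.single f 1) e ≠ 0) (EH a b v) f).card =
      ∑ e ∈ EH a b v, (Finset.bipartiteBelow
      (fun f e => dualCut a b v l r (Pi.single f 1) e ≠ 0) (Fp a b v l r) e).card :=
    Finset.sum_card_bipartiteAbove_eq_sum_card_bipartiteBelow _
  have h2 : (Fp a b v l r).card * 7 ≤ ∑ f ∈ Fp a b v l r, (Finset.bipartiteAbove
      (fun f e => dualCut a b v l r (Pi.single f 1) e ≠ 0) (EH a b v) f).card := by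
    rw [← smul_eq_mul]
    apply Finset.card_nsmul_le_sum
    intro f hf
    refine (h7 _ (hcut (Pi.single f 1)) ((mem_Fp a b v l r f).1 hf)).trans
      (Finset.card_le_card ?_)
    intro e he
    have he' : dualCut a b v l r (Pi.single f 1) e ≠ 0 := (Finset.mem_filter.1 he).2
    rw [Finset.mem_bipartiteAbove, mem_EH]
    refine ⟨fun h => he' ?_, he'⟩
    unfold dualCut
    rw [if_pos h]
  have h3 : ∑ e ∈ EH a b v, (Finset.bipartiteBelow
      (fun f e => dualCut a b v l r (Pi.single f 1) e ≠ 0) (Fp a b v l r) e).card ≤
      (EH a b v).card * 2 := by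
    rw [← smul_eq_mul]
    apply Finset.sum_le_card_nsmul
    intro e _
    refine (Finset.card_le_card (t := {l e, r e}) ?_).trans Finset.card_le_two
    intro f hf
    rw [Finset.mem_bipartiteBelow] at hf
    by_contra hcon
    rw [Finset.mem_insert, Finset.mem_singleton, not_or] at hcon
    apply hf.2
    unfold dualCut
    by_cases h : a e = v ∨ b e = v
    · rw [if_pos h]
    · rw [if_neg h, Pi.single_eq_of_ne (Ne.symm hcon.1), Pi.single_eq_of_ne (Ne.symm hcon.2),
        add_zero]
  omega

theorem degree_count (a b : E → V) (v : V) (hdeg : ∀ p, 3 ≤ (star a b p).card) :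
    3 * (Fintype.card V - 1) ≤ 2 * (EH a b v).card + (star a b v).card := by
  have h1 : ∑ x ∈ Finset.univ.erase v, (Finset.bipartiteAbove
      (fun x e => Inc a b x e) (Finset.univ : Finset E) x).card =
      ∑ e ∈ (Finset.univ : Finset E), (Finset.bipartiteBelow
      (fun x e => Inc a b x e) (Finset.univ.erase v) e).card :=
    Finset.sum_card_bipartiteAbove_eq_sum_card_bipartiteBelow _
  have h2 : (Finset.univ.erase v).card * 3 ≤ ∑ x ∈ Finset.univ.erase v, (Finset.bipartiteAbove
      (fun x e => Inc a b x e) (Finset.univ : Finset E) x).card := by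
    rw [← smul_eq_mul]
    apply Finset.card_nsmul_le_sum
    intro x _
    refine (hdeg x).trans (Finset.card_le_card ?_)
    intro e he
    rw [Finset.mem_bipartiteAbove]
    exact ⟨Finset.mem_univ _, mem_star.1 he⟩
  rw [Finset.card_erase_of_mem (Finset.mem_univ _), Finset.card_univ] at h2
  have h3 : ∑ e ∈ (Finset.univ : Finset E), (Finset.bipartiteBelow
      (fun x e => Inc a b x e) (Finset.univ.erase v) e).card ≤
      2 * (EH a b v).card + (star a b v).card := by
    rw [← Finset.sum_filter_add_sum_filter_not Finset.univ (fun e => ¬ (a e = v ∨ b e = v))]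
    apply Nat.add_le_add
    · have h4 : ∑ e ∈ Finset.univ.filter (fun e => ¬ (a e = v ∨ b e = v)),
          (Finset.bipartiteBelow (fun x e => Inc a b x e) (Finset.univ.erase v) e).card ≤
          (Finset.univ.filter (fun e => ¬ (a e = v ∨ b e = v))).card * 2 := by
        rw [← smul_eq_mul]
        apply Finset.sum_le_card_nsmul
        intro e _
        refine (Finset.card_le_card (t := {a e, b e}) ?_).trans Finset.card_le_two
        intro x hx
        rw [Finset.mem_bipartiteBelow] at hx
        rw [Finset.mem_insert, Finset.mem_singleton]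
        rcases hx.2 with h | h
        · exact Or.inl h.symm
        · exact Or.inr h.symm
      rw [mul_comm]
      exact h4
    · have h4 : ∑ e ∈ Finset.univ.filter (fun e => ¬ ¬ (a e = v ∨ b e = v)),
          (Finset.bipartiteBelow (fun x e => Inc a b x e) (Finset.univ.erase v) e).card ≤
          (Finset.univ.filter (fun e => ¬ ¬ (a e = v ∨ b e = v))).card * 1 := by
        rw [← smul_eq_mul]
        apply Finset.sum_le_card_nsmul
        intro e he
        have he' := not_not.1 (Finset.mem_filter.1 he).2
        rw [Finset.card_le_one]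
        intro x hx y hy
        rw [Finset.mem_bipartiteBelow, Finset.mem_erase] at hx hy
        have hx1 := hx.1.1
        have hy1 := hy.1.1
        rcases he' with h | h
        · have h5 : b e = x := by
            rcases hx.2 with h' | h'
            · exact absurd (h'.symm.trans h) hx1
            · exact h'
          have h6 : b e = y := by
            rcases hy.2 with h' | h'
            · exact absurd (h'.symm.trans h) hy1
            · exact h'
          exact h5.symm.trans h6
        · have h5 : a e = x := by
            rcases hx.2 with h' | h'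
            · exact h'
            · exact absurd (h'.symm.trans h) hx1
          have h6 : a e = y := by
            rcases hy.2 with h' | h'
            · exact h'
            · exact absurd (h'.symm.trans h) hy1
          exact h5.symm.trans h6
      rw [mul_one] at h4
      refine h4.trans (Finset.card_le_card ?_)
      intro e he
      rw [mem_star]
      exact not_not.1 (Finset.mem_filter.1 he).2
  omega

end Pool.Agent.Lib_helper61.APX
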