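import Pool.Agent.Lib_helper61.APX.Conn

set_option autoImplicit false

/-!
# Integer flows from flows modulo five
-/

open Classical

namespace Pool.Agent.Lib_helper61.APX

variable {V E : Type} [Fintype V] [Fintype E]

/-- indicator -/
noncomputable def iind (Y : Set V) (x : V) : ℤ := if x ∈ Y then 1 else 0

omit [Fintype V] in
theorem iind_pos {Y : Set V} {x : V} (h : x ∈ Y) : iind Y x = 1 := if_pos h

omit [Fintype V] in
theorem iind_neg {Y : Set V} {x : V} (h : x ∉ Y) : iind Y x = 0 := if_neg h

/-- net value leaving `Y` -/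
noncomputable def inet (a b : E → V) (f : E → ℤ) (Y : Set V) : ℤ :=
  ∑ e, f e * (iind Y (a e) - iind Y (b e))

omit [Fintype V] in
theorem isFlow_iff_int (a b : E → V) (f : E → ℤ) : IsFlow a b f ↔ ∀ x, inet a b f {x} = 0 := by
  unfold IsFlow
  refine forall_congr' fun x => ?_
  rw [Finset.sum_filter, Finset.sum_filter, ← sub_eq_zero, ← Finset.sum_sub_distrib]
  have : ∀ e, ((if a e = x then f e else 0) - if b e = x then f e else 0) =
      f e * (iind {x} (a e) - iind {x} (b e)) := by
    intro e
    unfold iind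
    simp only [Set.mem_singleton_iff]
    split_ifs <;> ring
  simp only [this]
  rfl

theorem iind_eq_sum (Y : Set V) (z : V) : iind Y z = ∑ x, iind Y x * iind {x} z := by
  rw [Finset.sum_eq_single z]
  · rw [iind_pos (show z ∈ ({z} : Set V) from rfl), mul_one]
  · intro x _ hx
    rw [iind_neg (show z ∉ ({x} : Set V) from fun h => hx h.symm), mul_zero]
  · intro h
    exact absurd (Finset.mem_univ _) h

theorem inet_eq_sum (a b : E → V) (f : E → ℤ) (Y : Set V) :
    inet a b f Y = ∑ x, iind Y x * inet a b f {x} := by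
  unfold inet
  simp only [Finset.mul_sum]
  rw [Finset.sum_comm]
  refine Finset.sum_congr rfl fun e _ => ?_
  rw [iind_eq_sum Y (a e), iind_eq_sum Y (b e), ← Finset.sum_sub_distrib, Finset.mul_sum]
  exact Finset.sum_congr rfl fun x _ => by ring

omit [Fintype V] in
theorem inet_cast (a b : E → V) (φ : E → ZMod 5) (f : E → ℤ) (h : ∀ e, (f e : ZMod 5) = φ e)
    (Y : Set V) : ((inet a b f Y : ℤ) : ZMod 5) = net a b φ Y := by
  unfold inet net
  rw [Int.cast_sum]
  refine Finset.sum_congr rfl fun e _ => ?_
  rw [Int.cast_mul, h e, Int.cast_sub]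
  unfold iind ind
  push_cast
  rfl

/-- lifts of `φ` with values of absolute value at most four -/
def Lift (φ : E → ZMod 5) (f : E → ℤ) : Prop := (∀ e, (f e : ZMod 5) = φ e) ∧ ∀ e, |f e| ≤ 4

/-- total imbalance -/
noncomputable def tot (a b : E → V) (f : E → ℤ) : ℕ := ∑ x, (inet a b f {x}).natAbs

/-- sets of vertices to which five units can be moved from `x` -/
def Good (a b : E → V) (φ : E → ZMod 5) (f : E → ℤ) (x : V) (R : Finset V) : Prop :=
  x ∈ R ∧ ∀ y ∈ R, ∃ f' : E → ℤ, Lift φ f' ∧
    (∀ z, inet a b f' {z} = inet a b f {z} - 5 * iind {x} z + 5 * iind {y} z) ∧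
    ∀ e, ¬ (a e ∈ R ∧ b e ∈ R) → f' e = f e

omit [Fintype V] in
theorem inet_update (a b : E → V) (f : E → ℤ) (e : E) (t : ℤ) (Y : Set V) :
    inet a b (Function.update f e t) Y =
      inet a b f Y + (t - f e) * (iind Y (a e) - iind Y (b e)) := by
  unfold inet
  rw [← Finset.add_sum_erase _ _ (Finset.mem_univ e),
    ← Finset.add_sum_erase (f := fun e => f e * (iind Y (a e) - iind Y (b e))) _
      (Finset.mem_univ e)]
  have h1 : ∑ x ∈ Finset.univ.erase e, Function.update f e t x * (iind Y (a x) - iind Y (b x)) =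
      ∑ x ∈ Finset.univ.erase e, f x * (iind Y (a x) - iind Y (b x)) := by
    refine Finset.sum_congr rfl fun x hx => ?_
    rw [Function.update_of_ne (Finset.ne_of_mem_erase hx)]
  rw [h1, Function.update_self]
  ring

omit [Fintype V] in
theorem lift_update (φ : E → ZMod 5) (f : E → ℤ) (h : Lift φ f) (e : E) (t : ℤ)
    (h1 : (t : ZMod 5) = φ e) (h2 : |t| ≤ 4) : Lift φ (Function.update f e t) := by
  refine ⟨fun e' => ?_, fun e' => ?_⟩
  · by_cases he : e' = e
    · rw [he, Function.update_self, h1]
    · rw [Function.update_of_ne he]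
      exact h.1 e'
  · by_cases he : e' = e
    · rw [he, Function.update_self]
      exact h2
    · rw [Function.update_of_ne he]
      exact h.2 e'

theorem five_cast : ((5 : ℤ) : ZMod 5) = 0 := by
  exact (ZMod.intCast_zmod_eq_zero_iff_dvd 5 5).2 (dvd_refl _)

omit [Fintype V] in
/-- one more vertex -/
theorem good_insert (a b : E → V) (φ : E → ZMod 5) (f : E → ℤ) (x : V) (R : Finset V)
    (hR : Good a b φ f x R) (e : E) (p y : V) (hp : p ∈ R) (hy : y ∉ R)
    (he : (a e = p ∧ b e = y ∧ 0 < f e) ∨ (b e = p ∧ a e = y ∧ f e < 0)) (hf : Lift φ f) :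
    Good a b φ f x (insert y R) := by
  refine ⟨Finset.mem_insert_of_mem hR.1, ?_⟩
  intro y' hy'
  have hsub : ∀ e', ¬ (a e' ∈ insert y R ∧ b e' ∈ insert y R) → ¬ (a e' ∈ R ∧ b e' ∈ R) :=
    fun e' h h' => h ⟨Finset.mem_insert_of_mem h'.1, Finset.mem_insert_of_mem h'.2⟩
  rw [Finset.mem_insert] at hy'
  rcases hy' with rfl | hy'
  · obtain ⟨f', h1, h2, h3⟩ := hR.2 p hp
    have hlift := hf.2 e
    rw [abs_le] at hlift
    rcases he with ⟨ha, hb, hpos⟩ | ⟨hb, ha, hneg⟩
    · have hfe : f' e = f e := h3 e (fun h => hy (hb ▸ h.2))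
      refine ⟨Function.update f' e (f e - 5), lift_update φ f' h1 e _ ?_ ?_, ?_, ?_⟩
      · rw [Int.cast_sub, five_cast, sub_zero, hf.1]
      · rw [abs_le]
        constructor <;> omega
      · intro z
        rw [inet_update, h2 z, hfe]
        have e1 : iind {z} (a e) = iind {p} z := by
          rw [ha]
          unfold iind
          simp only [Set.mem_singleton_iff, eq_comm]
        have e2 : iind {z} (b e) = iind {y'} z := by
          rw [hb]
          unfold iind
          simp only [Set.mem_singleton_iff, eq_comm]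
        rw [e1, e2]
        ring
      · intro e' he'
        have hne : e' ≠ e := by
          rintro rfl
          exact he' ⟨by rw [ha]; exact Finset.mem_insert_of_mem hp,
            by rw [hb]; exact Finset.mem_insert_self _ _⟩
        rw [Function.update_of_ne hne]
        exact h3 e' (hsub e' he')
    · have hfe : f' e = f e := h3 e (fun h => hy (ha ▸ h.1))
      refine ⟨Function.update f' e (f e + 5), lift_update φ f' h1 e _ ?_ ?_, ?_, ?_⟩
      · rw [Int.cast_add, five_cast, add_zero, hf.1]
      · rw [abs_le]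
        constructor <;> omega
      · intro z
        rw [inet_update, h2 z, hfe]
        have e1 : iind {z} (a e) = iind {y'} z := by
          rw [ha]
          unfold iind
          simp only [Set.mem_singleton_iff, eq_comm]
        have e2 : iind {z} (b e) = iind {p} z := by
          rw [hb]
          unfold iind
          simp only [Set.mem_singleton_iff, eq_comm]
        rw [e1, e2]
        ring
      · intro e' he'
        have hne : e' ≠ e := by
          rintro rfl
          exact he' ⟨by rw [ha]; exact Finset.mem_insert_self _ _,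
            by rw [hb]; exact Finset.mem_insert_of_mem hp⟩
        rw [Function.update_of_ne hne]
        exact h3 e' (hsub e' he')
  · obtain ⟨f', h1, h2, h3⟩ := hR.2 y' hy'
    exact ⟨f', h1, h2, fun e' he' => h3 e' (hsub e' he')⟩

theorem exists_int_flow (a b : E → V) (φ : E → ZMod 5) (h0 : ∀ x, net a b φ {x} = 0) :
    ∃ f : E → ℤ, Lift φ f ∧ ∀ x, inet a b f {x} = 0 := by
  have hex : ∃ n, ∃ f : E → ℤ, Lift φ f ∧ tot a b f = n := by
    refine ⟨_, fun e => ((φ e).val : ℤ), ⟨fun e => ?_, fun e => ?_⟩, rfl⟩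
    · rw [Int.cast_natCast, ZMod.natCast_zmod_val]
    · have h1 : (φ e).val < 5 := ZMod.val_lt (φ e)
      rw [abs_of_nonneg (Int.natCast_nonneg _)]
      omega
  obtain ⟨f, hf, htot⟩ := Nat.find_spec hex
  have hmin : ∀ f', Lift φ f' → tot a b f ≤ tot a b f' := by
    intro f' hf'
    rw [htot]
    exact Nat.find_min' hex ⟨f', hf', rfl⟩
  refine ⟨f, hf, ?_⟩
  by_contra hcon
  push Not at hcon
  have hdvd : ∀ x, (5 : ℤ) ∣ inet a b f {x} := by
    intro x
    have h1 := inet_cast a b φ f hf.1 {x}
    rw [h0 x] at h1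
    exact (ZMod.intCast_zmod_eq_zero_iff_dvd _ 5).1 h1
  have hsum : ∑ x, inet a b f {x} = 0 := by
    have h1 : inet a b f Set.univ = 0 := by
      unfold inet
      apply Finset.sum_eq_zero
      intro e _
      rw [iind_pos (Set.mem_univ _), iind_pos (Set.mem_univ _), sub_self, mul_zero]
    rw [inet_eq_sum] at h1
    rw [← h1]
    exact Finset.sum_congr rfl fun x _ => by rw [iind_pos (Set.mem_univ _), one_mul]
  obtain ⟨x, hx⟩ : ∃ x, 0 < inet a b f {x} := by
    by_contra hno
    push Not at hno
    obtain ⟨x, hx⟩ := hcon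
    have h1 : ∑ x, inet a b f {x} < ∑ _x : V, (0 : ℤ) :=
      Finset.sum_lt_sum (fun z _ => hno z) ⟨x, Finset.mem_univ _, lt_of_le_of_ne (hno x) hx⟩
    rw [hsum, Finset.sum_const_zero] at h1
    exact lt_irrefl _ h1
  -- a maximal good set
  obtain ⟨R, hR, hmax⟩ := Finset.exists_max_image
    ((Finset.univ : Finset (Finset V)).filter fun R => Good a b φ f x R) Finset.card
    ⟨{x}, by
      rw [Finset.mem_filter]
      refine ⟨Finset.mem_univ _, Finset.mem_singleton_self x, ?_⟩
      intro y hy
      rw [Finset.mem_singleton] at hy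
      subst hy
      exact ⟨f, hf, fun z => by ring, fun e _ => rfl⟩⟩
  rw [Finset.mem_filter] at hR
  have hclosed : ∀ (e : E) (p y : V), p ∈ R → y ∉ R →
      ¬ ((a e = p ∧ b e = y ∧ 0 < f e) ∨ (b e = p ∧ a e = y ∧ f e < 0)) := by
    intro e p y hp hy he
    have h1 := good_insert a b φ f x R hR.2 e p y hp hy he hf
    have h2 := hmax (insert y R) (by
      rw [Finset.mem_filter]
      exact ⟨Finset.mem_univ _, h1⟩)
    rw [Finset.card_insert_of_notMem hy] at h2
    omega
  have hle : inet a b f (R : Set V) ≤ 0 := by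
    unfold inet
    apply Finset.sum_nonpos
    intro e _
    by_cases h1 : a e ∈ R
    · by_cases h2 : b e ∈ R
      · rw [iind_pos (show a e ∈ (R : Set V) from h1), iind_pos (show b e ∈ (R : Set V) from h2),
          sub_self, mul_zero]
      · rw [iind_pos (show a e ∈ (R : Set V) from h1), iind_neg (show b e ∉ (R : Set V) from h2),
          sub_zero, mul_one]
        by_contra h3
        exact hclosed e (a e) (b e) h1 h2 (Or.inl ⟨rfl, rfl, not_le.1 h3⟩)
    · by_cases h2 : b e ∈ R
      · rw [iind_neg (show a e ∉ (R : Set V) from h1), iind_pos (show b e ∈ (R : Set V) from h2)]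
        by_contra h3
        exact hclosed e (b e) (a e) h2 h1 (Or.inr ⟨rfl, rfl, by
          rw [not_le] at h3
          linarith⟩)
      · rw [iind_neg (show a e ∉ (R : Set V) from h1), iind_neg (show b e ∉ (R : Set V) from h2),
          sub_self, mul_zero]
  obtain ⟨y, hyR, hy⟩ : ∃ y, y ∈ R ∧ inet a b f {y} < 0 := by
    by_contra hno
    push Not at hno
    rw [inet_eq_sum] at hle
    have h1 : 0 < ∑ z, iind (R : Set V) z * inet a b f {z} := by
      apply Finset.sum_pos'
      · intro z _
        by_cases hz : z ∈ R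
        · rw [iind_pos (show z ∈ (R : Set V) from hz), one_mul]
          exact hno z hz
        · rw [iind_neg (show z ∉ (R : Set V) from hz), zero_mul]
      · refine ⟨x, Finset.mem_univ _, ?_⟩
        rw [iind_pos (show x ∈ (R : Set V) from hR.2.1), one_mul]
        exact hx
    omega
  obtain ⟨f', hf', hnet, _⟩ := hR.2.2 y hyR
  have hlt : tot a b f' < tot a b f := by
    have hxy : x ≠ y := by
      rintro rfl
      omega
    have hX : inet a b f' {x} = inet a b f {x} - 5 := by
      rw [hnet x, iind_pos (show x ∈ ({x} : Set V) from rfl),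
        iind_neg (show x ∉ ({y} : Set V) from hxy)]
      ring
    have hYv : inet a b f' {y} = inet a b f {y} + 5 := by
      rw [hnet y, iind_neg (show y ∉ ({x} : Set V) from fun h => hxy h.symm),
        iind_pos (show y ∈ ({y} : Set V) from rfl)]
      ring
    have hdx := hdvd x
    have hdy := hdvd y
    unfold tot
    apply Finset.sum_lt_sum
    · intro z _
      by_cases hzx : z = x
      · rw [hzx, hX]
        omega
      · by_cases hzy : z = y
        · rw [hzy, hYv]
          omega
        · rw [hnet z, iind_neg (show z ∉ ({x} : Set V) from hzx),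
            iind_neg (show z ∉ ({y} : Set V) from hzy)]
          simp
    · refine ⟨x, Finset.mem_univ _, ?_⟩
      rw [hX]
      omega
  exact absurd (hmin f' hf') (by omega)

/-- **Nowhere-zero 5-flows.** -/
theorem five_flow {γ : ℕ} (hγ : γ ≤ 2) (a b : E → V) (v : V) (hbr : Bridgeless a b)
    (h : DualOfDefect γ a b v) : ∃ f : E → ℤ, IsFlow a b f ∧ ∀ e, 1 ≤ |f e| ∧ |f e| ≤ 4 := by
  obtain ⟨φ, h1, h2⟩ := nz_bridgeless hγ _ V E a b v (le_refl _) hbr h
  obtain ⟨f, hf, h3⟩ := exists_int_flow a b φ h1
  refine ⟨f, (isFlow_iff_int a b f).2 h3, fun e => ⟨?_, hf.2 e⟩⟩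
  apply Int.one_le_abs
  intro h0
  have := hf.1 e
  rw [h0, Int.cast_zero] at this
  exact h2 e this.symm

end Pool.Agent.Lib_helper61.APX
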