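import Pool.Agent.Lib_helper61.APX.Euler

set_option autoImplicit false

/-!
# The induction
-/

open Classical

namespace Pool.Agent.Lib_helper61.APX

theorem nz_of_empty {V E : Type} [Fintype E] (a b : E → V) (h : E → False) : NZ a b := by
  refine ⟨fun e => (h e).elim, fun x => ?_, fun e => (h e).elim⟩
  unfold net
  apply Finset.sum_eq_zero
  intro e _
  exact (h e).elim

variable {V E : Type} [Fintype V] [Fintype E]

theorem cuts_of {γ N : ℕ} (ih : IH γ N) (a b : E → V) (v : V)
    (hN : Fintype.card V + Fintype.card E ≤ N + 1) (hemb : DualOfDefect γ a b v) (htec : TEC a b)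
    (hnz : ¬ NZ a b) : Cuts a b := by
  have h3 : ∀ Y : Set V, Y.Nonempty → Yᶜ.Nonempty → 3 ≤ (cut a b Y).card := by
    intro Y hY hY'
    have h1 := htec Y hY hY'
    have h2 : (cut a b Y).card ≠ 2 := fun h => hnz (reduce_two ih a b v hN hemb htec Y h)
    omega
  refine ⟨h3, ?_⟩
  intro Y hin hout
  have h1 : 3 ≤ (cut a b Y).card := by
    obtain ⟨p, _, _, hp, _⟩ := hin
    obtain ⟨q, _, _, hq, _⟩ := hout
    exact h3 Y ⟨p, hp⟩ ⟨q, hq⟩
  have h2 : (cut a b Y).card ≠ 3 :=
    fun h => hnz (reduce_three ih a b v hN hemb h3 Y h hin hout)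
  omega

theorem noCC_of {γ N : ℕ} (ih : IH γ N) (a b : E → V) (v : V)
    (hN : Fintype.card V + Fintype.card E ≤ N + 1) (hemb : DualOfDefect γ a b v)
    (hC : Cuts a b) (hnz : ¬ NZ a b) : NoCC a b := by
  intro ℓ h2 h6 x c h
  interval_cases ℓ
  · exact hnz (no_circ2 ih a b v hN hemb hC h.toCirc)
  · exact hnz (no_circ3 ih a b v hN hemb hC h.toCirc)
  · exact hnz (no_circ4 ih a b v hN hemb hC h.toCirc)
  · exact hnz (no_circ5 ih a b v hN hemb hC h.toCirc)
  · exact hnz (no_circ6 ih a b v hN hemb hC h.toCirc)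

theorem even_large {a b : E → V} {v : V} (hnl : ∀ e, a e ≠ b e) (hno : NoCC a b)
    (s : E → ZMod 2) (hs : EvenSet a b v s) (hne : s ≠ 0) :
    7 ≤ (Finset.univ.filter fun e => s e ≠ 0).card := by
  by_contra hcon
  have hmem : ∀ e, e ∈ (Finset.univ.filter fun e => s e ≠ 0) ↔ s e ≠ 0 := by
    intro e
    rw [Finset.mem_filter]
    exact ⟨fun h => h.2, fun h => ⟨Finset.mem_univ _, h⟩⟩
  obtain ⟨ℓ, x, c, h1, h2, h3⟩ := cc_of_set hnl (Finset.univ.filter fun e => s e ≠ 0) (by
    by_contra hem
    apply hne
    funext e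
    by_contra he
    exact hem ⟨e, (hmem e).2 he⟩) (by
    intro e he p hp
    by_contra hno'
    push Not at hno'
    rw [hmem] at he
    have h4 := (isFlow_iff a b s).1 hs.2 p
    unfold net at h4
    rw [Finset.sum_eq_single e] at h4
    · rcases mul_eq_zero.1 h4 with h | h
      · exact he h
      · unfold ind at h
        simp only [Set.mem_singleton_iff] at h
        rcases hp with h5 | h5
        · have h6 : b e ≠ p := fun h' => hnl e (h5.trans h'.symm)
          rw [if_pos h5, if_neg h6] at h
          exact absurd h (by decide)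
        · have h6 : a e ≠ p := fun h' => hnl e (h'.trans h5.symm)
          rw [if_neg h6, if_pos h5] at h
          exact absurd h (by decide)
    · intro f _ hf
      by_cases hsf : s f = 0
      · rw [hsf, zero_mul]
      · have h5 := hno' f ((hmem f).2 hsf) hf
        unfold Inc at h5
        rw [not_or] at h5
        unfold ind
        rw [if_neg (by rw [Set.mem_singleton_iff]; exact h5.1),
          if_neg (by rw [Set.mem_singleton_iff]; exact h5.2), sub_zero, mul_zero]
    · intro h
      exact absurd (Finset.mem_univ _) h)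
  exact hno ℓ h1 (by omega) x c h3

theorem step {γ N : ℕ} (hγ : γ ≤ 2) (ih : IH γ N) : IH γ (N + 1) := by
  intro V E _ _ a b v hN htec hemb
  by_contra hnz
  have hnl : ∀ e, a e ≠ b e := fun e h => hnz (reduce_loop ih a b v hN hemb htec e h)
  have hV : 2 ≤ Fintype.card V := by
    by_contra hcon
    have h1 : Fintype.card V ≤ 1 := by omega
    have h2 := Fintype.card_le_one_iff_subsingleton.1 h1
    exact hnz (nz_of_empty a b fun e => hnl e (Subsingleton.elim _ _))
  have hC := cuts_of ih a b v hN hemb htec hnz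
  have hno := noCC_of ih a b v hN hemb hC hnz
  have hdeg : ∀ p, 3 ≤ (star a b p).card := by
    intro p
    have h1 : 1 < Fintype.card V := by omega
    obtain ⟨q, hq⟩ := Fintype.exists_ne_of_one_lt_card h1 p
    refine (hC.three {p} ⟨p, rfl⟩ ⟨q, hq⟩).trans (Finset.card_le_card ?_)
    intro e he
    rw [mem_cut] at he
    rw [mem_star]
    by_contra hcon
    unfold Inc at hcon
    rw [not_or] at hcon
    exact he (iff_of_false hcon.1 hcon.2)
  obtain ⟨F, hF, l, r, hcut, hspan⟩ := hemb
  have h1 := le_Zs a b v hV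
  have h2 := Zs_le a b v l r hspan
  have h3 := faces_count a b v l r hcut (even_large hnl hno)
  have h4 := degree_count a b v hdeg
  have h5 := ball_count hnl hno v hdeg
  have h6 := hdeg v
  rcases Finset.eq_empty_or_nonempty (Fp a b v l r) with h | h
  · have h7 := range_le_zero a b v l r h
    omega
  · have h7 := range_le a b v l r h
    omega

theorem main_tec {γ : ℕ} (hγ : γ ≤ 2) (N : ℕ) : IH γ N := by
  induction N with
  | zero =>
    intro V E _ _ a b v hN _ _
    have h1 : 0 < Fintype.card V := Fintype.card_pos_iff.2 ⟨v⟩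
    omega
  | succ N ih => exact step hγ ih

end Pool.Agent.Lib_helper61.APX
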