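import Pool.Agent.Lib_helper61.APX.Basic
import Pool.Agent.Lib_helper61.APX.Defs

set_option autoImplicit false

/-!
# Contraction of `K`, deletion of `D`
-/

open Classical

namespace Pool.Agent.Lib_helper61.APX

section

variable {V E k : Type} [Fintype E] [Field k]

theorem isFlow_iff (a b : E → V) (φ : E → k) : IsFlow a b φ ↔ ∀ x, net a b φ {x} = 0 := by
  unfold IsFlow
  refine forall_congr' fun x => ?_
  rw [Finset.sum_filter, Finset.sum_filter, ← sub_eq_zero, ← Finset.sum_sub_distrib]
  have : ∀ e, ((if a e = x then φ e else 0) - if b e = x then φ e else 0) =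
      φ e * (ind k {x} (a e) - ind k {x} (b e)) := by
    intro e
    unfold ind
    simp only [Set.mem_singleton_iff]
    split_ifs <;> ring
  simp only [this]
  rfl

/-- the relation that is contracted -/
def Rel (a b : E → V) (K : Set E) (x y : V) : Prop := ∃ e ∈ K, a e = x ∧ b e = y

/-- vertices of the minor -/
abbrev QV (a b : E → V) (K : Set E) : Type := Quot (Rel a b K)

/-- edges of the minor -/
abbrev QE (K D : Set E) : Type := {e : E // e ∉ K ∧ e ∉ D}

/-- tails -/
def qa (a b : E → V) (K D : Set E) : QE K D → QV a b K := fun e => Quot.mk _ (a e.1)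

/-- heads -/
def qb (a b : E → V) (K D : Set E) : QE K D → QV a b K := fun e => Quot.mk _ (b e.1)

/-- extension by zero -/
noncomputable def ext0 (K D : Set E) (φ : QE K D → k) : E → k :=
  fun e => if h : e ∉ K ∧ e ∉ D then φ ⟨e, h⟩ else 0

/-- preimage -/
def pre (a b : E → V) (K : Set E) (Y : Set (QV a b K)) : Set V := {x | Quot.mk _ x ∈ Y}

theorem pre_closed (a b : E → V) (K : Set E) (Y : Set (QV a b K)) :
    Closed a b K (pre a b K Y) := by
  intro e he
  have : (Quot.mk _ (a e) : QV a b K) = Quot.mk _ (b e) := Quot.sound ⟨e, he, rfl, rfl⟩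
  show Quot.mk _ (a e) ∈ Y ↔ Quot.mk _ (b e) ∈ Y
  rw [this]

theorem exists_pre (a b : E → V) (K : Set E) (Y : Set V) (hY : Closed a b K Y) :
    ∃ Y' : Set (QV a b K), pre a b K Y' = Y := by
  refine ⟨{q | Quot.lift (fun x => x ∈ Y) (by
    rintro x y ⟨e, he, rfl, rfl⟩
    exact propext (hY e he)) q}, ?_⟩
  ext x
  rfl

theorem net_ext0 (a b : E → V) (K D : Set E) (φ : QE K D → k) (Y : Set (QV a b K)) :
    net a b (ext0 K D φ) (pre a b K Y) = net (qa a b K D) (qb a b K D) φ Y := by
  unfold net
  rw [← Fintype.sum_subtype_add_sum_subtype (fun e => e ∉ K ∧ e ∉ D)]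
  have h2 : ∑ e : {e // ¬ (e ∉ K ∧ e ∉ D)}, ext0 K D φ e.1 *
      (ind k (pre a b K Y) (a e.1) - ind k (pre a b K Y) (b e.1)) = 0 := by
    apply Finset.sum_eq_zero
    intro e _
    unfold ext0
    rw [dif_neg e.2, zero_mul]
  rw [h2, add_zero]
  refine Finset.sum_congr rfl fun e _ => ?_
  unfold ext0
  rw [dif_pos e.2]
  rfl

end

section

variable {V E : Type} [Fintype V] [Fintype E]

theorem tec_minor (a b : E → V) (K D : Set E)
    (h : ∀ Y : Set V, Closed a b K Y → Y.Nonempty → Yᶜ.Nonempty →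
      2 ≤ (Finset.univ.filter fun e => (e ∉ K ∧ e ∉ D) ∧ ¬ (a e ∈ Y ↔ b e ∈ Y)).card) :
    TEC (qa a b K D) (qb a b K D) := by
  intro Y hY hY'
  have h1 := h (pre a b K Y) (pre_closed a b K Y) (by
    obtain ⟨q, hq⟩ := hY
    induction q using Quot.inductionOn with
    | h x => exact ⟨x, hq⟩) (by
    obtain ⟨q, hq⟩ := hY'
    induction q using Quot.inductionOn with
    | h x => exact ⟨x, hq⟩)
  refine h1.trans ?_
  rw [← Finset.card_map ⟨(Subtype.val : QE K D → E), Subtype.val_injective⟩]
  apply Finset.card_le_card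
  intro e he
  simp only [Finset.mem_filter, Finset.mem_univ, true_and] at he
  rw [Finset.mem_map]
  refine ⟨⟨e, he.1⟩, ?_, rfl⟩
  unfold cut
  rw [Finset.mem_filter]
  exact ⟨Finset.mem_univ _, he.2⟩

theorem net_flow {k : Type} [Field k] (a b : E → V) (φ : E → k) (h : ∀ x, net a b φ {x} = 0)
    (Y : Set V) : net a b φ Y = 0 := by
  rw [net_eq_sum]
  apply Finset.sum_eq_zero
  intro x _
  rw [h x, mul_zero]

/-- edges of `K` not incident with `v` -/
def KH (a b : E → V) (v : V) (K : Set E) : Set E := {e | e ∈ K ∧ a e ≠ v ∧ b e ≠ v}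

theorem lift_even (a b : E → V) (v : V) (K D : Set E) (s : QE K D → ZMod 2)
    (hs : EvenSet (qa a b K D) (qb a b K D) (Quot.mk _ v) s) :
    ∃ t : E → ZMod 2, EvenSet a b v t ∧ ∀ e, e ∉ KH a b v K → t e = ext0 K D s e := by
  obtain ⟨hs1, hs2⟩ := hs
  rw [isFlow_iff] at hs2
  haveI : Finite (QV a b K) := Quot.finite _
  haveI : Fintype (QV a b K) := Fintype.ofFinite _
  obtain ⟨t, ht1, ht2⟩ := extend a b (KH a b v K) (ext0 K D s) (by
    intro Y hY
    set Y1 : Set V := {x | x ∈ Y ∧ (Quot.mk _ x : QV a b K) ≠ Quot.mk _ v} with hY1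
    have hc : Closed a b K Y1 := by
      intro e he
      have hq : (Quot.mk _ (a e) : QV a b K) = Quot.mk _ (b e) := Quot.sound ⟨e, he, rfl, rfl⟩
      show (a e ∈ Y ∧ (Quot.mk _ (a e) : QV a b K) ≠ Quot.mk _ v) ↔
        (b e ∈ Y ∧ (Quot.mk _ (b e) : QV a b K) ≠ Quot.mk _ v)
      rw [hq]
      by_cases hv : (Quot.mk _ (b e) : QV a b K) = Quot.mk _ v
      · simp [hv]
      · have h1 : a e ≠ v := by
          intro h
          rw [h] at hq
          exact hv hq.symm
        have h2 : b e ≠ v := by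
          intro h
          rw [h] at hv
          exact hv rfl
        have := hY e ⟨he, h1, h2⟩
        simp [hv, this]
    obtain ⟨Y', hY'⟩ := exists_pre a b K Y1 hc
    have h3 : net a b (ext0 K D s) Y = net a b (ext0 K D s) Y1 := by
      unfold net
      refine Finset.sum_congr rfl fun e _ => ?_
      by_cases he : e ∉ K ∧ e ∉ D
      · by_cases hz : ext0 K D s e = 0
        · rw [hz, zero_mul, zero_mul]
        · have h4 : ext0 K D s e = s ⟨e, he⟩ := by
            unfold ext0
            rw [dif_pos he]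
          have h5 : ¬ ((Quot.mk _ (a e) : QV a b K) = Quot.mk _ v ∨
              (Quot.mk _ (b e) : QV a b K) = Quot.mk _ v) := by
            intro h
            exact hz (h4.trans (hs1 ⟨e, he⟩ h))
          rw [not_or] at h5
          have h6 : ind (ZMod 2) Y (a e) = ind (ZMod 2) Y1 (a e) := by
            unfold ind
            have : a e ∈ Y1 ↔ a e ∈ Y := ⟨fun h => h.1, fun h => ⟨h, h5.1⟩⟩
            simp only [this]
          have h7 : ind (ZMod 2) Y (b e) = ind (ZMod 2) Y1 (b e) := by
            unfold ind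
            have : b e ∈ Y1 ↔ b e ∈ Y := ⟨fun h => h.1, fun h => ⟨h, h5.2⟩⟩
            simp only [this]
          rw [h6, h7]
      · unfold ext0
        rw [dif_neg he, zero_mul, zero_mul]
    rw [h3, ← hY', net_ext0]
    exact net_flow _ _ _ hs2 Y')
  refine ⟨t, ⟨?_, ?_⟩, ht1⟩
  · intro e he
    have h1 : e ∉ KH a b v K := by
      rintro ⟨_, h1, h2⟩
      rcases he with h | h
      · exact h1 h
      · exact h2 h
    rw [ht1 e h1]
    unfold ext0
    split_ifs with h
    · apply hs1
      rcases he with h' | h'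
      · left
        show (Quot.mk _ (a e) : QV a b K) = _
        rw [h']
      · right
        show (Quot.mk _ (b e) : QV a b K) = _
        rw [h']
    · rfl
  · rw [isFlow_iff]
    exact ht2

end

end Pool.Agent.Lib_helper61.APX
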