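import Mathlib

set_option autoImplicit false

/-!
# Flows of multigraphs, and duality

A finite multigraph (loops and parallel edges allowed) is a pair of maps `a b : E → V` on finite
types: the two ends of the edge `e` are `a e` and `b e`; for flows it is oriented from `a e` to
`b e`.  Sets of edges are also given by their indicator functions with values in `ZMod 2`.
-/

open Classical

namespace Pool.Agent.Lib_helper61.APX

/-- `φ` is a flow: at every vertex `x` the sum of the values of the edges leaving `x` is the sum
of the values of the edges entering `x`.  For `A = ZMod 2` this says that every vertex has even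
degree in the set of edges `φ`, in short: `φ` is an even set. -/
def IsFlow {V E A : Type} [Fintype E] [AddCommMonoid A] (a b : E → V) (φ : E → A) : Prop :=
  ∀ x : V, ∑ e with a e = x, φ e = ∑ e with b e = x, φ e

/-- The edges with exactly one end in the set `Y` of vertices. -/
noncomputable def cut {V E : Type} [Fintype E] (a b : E → V) (Y : Set V) : Finset E :=
  Finset.univ.filter fun e => ¬ (a e ∈ Y ↔ b e ∈ Y)

/-- The graph has no bridge: no cut has exactly one edge. -/
def Bridgeless {V E : Type} [Fintype E] (a b : E → V) : Prop := ∀ Y : Set V, (cut a b Y).card ≠ 1

/-- The graph has a dual graph of defect at most `γ`.  The vertices of the dual graph (the faces)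
form a finite type `F`, and the edge `e` joins the faces `l e` and `r e` in the dual graph.  So
the cuts of the dual graph are the sets of edges `e ↦ y (l e) + y (r e)`, where `y` is a set of
faces.  It is required that every cut of the dual graph is an even set, and that of any `γ + 1`
even sets a nonempty subfamily has a sum that is a cut of the dual graph.  For `γ = 0`, so if the
cuts of the dual graph are exactly the even sets, this is Whitney's criterion for planarity. -/
def HasDual {V E : Type} [Fintype E] (γ : ℕ) (a b : E → V) : Prop :=
  ∃ (F : Type) (_ : Fintype F) (l r : E → F),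
    (∀ y : F → ZMod 2, IsFlow a b fun e => y (l e) + y (r e)) ∧
    ∀ s : Fin (γ + 1) → E → ZMod 2, (∀ i, IsFlow a b (s i)) →
      ∃ (c : Fin (γ + 1) → ZMod 2) (y : F → ZMod 2), c ≠ 0 ∧
        ∀ e, ∑ i, c i * s i e = y (l e) + y (r e)

/-- The edges of `G - v`. -/
abbrev Away {V E : Type} (a b : E → V) (v : V) : Type := {e : E // a e ≠ v ∧ b e ≠ v}

end Pool.Agent.Lib_helper61.APX
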