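import Pool.Agent.Lib_helper61.APX.Basic

set_option autoImplicit false

/-!
# The number of nowhere-zero functions with a given boundary

It depends only on the sets of vertices over which the boundary sums to zero.
-/

open Classical

namespace Pool.Agent.Lib_helper61.APX

variable {V E k : Type} [Fintype V] [Fintype E] [Field k] [Fintype k]

/-- functions supported in `T` with boundary `τ` -/
noncomputable def FF (a b : E → V) (τ : V → k) (T : Finset E) : Finset (E → k) :=
  Finset.univ.filter fun φ => (∀ e, e ∉ T → φ e = 0) ∧ ∀ x, net a b φ {x} = τ x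

/-- functions with support `T` and boundary `τ` -/
noncomputable def GG (a b : E → V) (τ : V → k) (T : Finset E) : Finset (E → k) :=
  Finset.univ.filter fun φ => (∀ e, φ e ≠ 0 ↔ e ∈ T) ∧ ∀ x, net a b φ {x} = τ x

theorem card_FF (a b : E → V) (τ : V → k) (T : Finset E) :
    (FF a b τ T).card = ∑ T' ∈ T.powerset, (GG a b τ T').card := by
  rw [Finset.card_eq_sum_card_fiberwise (f := fun φ : E → k => Finset.univ.filter fun e => φ e ≠ 0)
    (t := T.powerset)]
  · refine Finset.sum_congr rfl fun T' hT' => ?_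
    congr 1
    ext φ
    rw [Finset.mem_filter]
    unfold FF GG
    simp only [Finset.mem_filter, Finset.mem_univ, true_and]
    rw [Finset.mem_powerset] at hT'
    constructor
    · rintro ⟨⟨h1, h2⟩, h3⟩
      refine ⟨fun e => ?_, h2⟩
      rw [← h3]
      simp
    · rintro ⟨h1, h2⟩
      refine ⟨⟨fun e he => ?_, h2⟩, ?_⟩
      · by_contra h
        exact he (hT' ((h1 e).1 h))
      · ext e
        simp only [Finset.mem_filter, Finset.mem_univ, true_and]
        exact h1 e
  · intro φ hφ
    have hφ' : φ ∈ FF a b τ T := by simpa using hφ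
    unfold FF at hφ'
    rw [Finset.mem_filter] at hφ'
    simp only [Finset.coe_powerset, Set.mem_preimage, Set.mem_powerset_iff]
    intro e he
    have he' : φ e ≠ 0 := by simpa using he
    by_contra h
    exact he' (hφ'.2.1 e (by simpa using h))

theorem FF_nonempty (a b : E → V) (τ τ' : V → k) (T : Finset E)
    (hp : ∀ Y : Set V, ∑ x, ind k Y x * τ x = 0 → ∑ x, ind k Y x * τ' x = 0)
    (h : (FF a b τ T).Nonempty) : (FF a b τ' T).Nonempty := by
  obtain ⟨φ, hφ⟩ := h
  unfold FF at hφ
  rw [Finset.mem_filter] at hφ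
  obtain ⟨ψ, h1, h2⟩ := exists_boundary a b (T : Set E) τ' (by
    intro Y hY
    apply hp
    have := net_closed a b (T : Set E) φ (fun e he => hφ.2.1 e (by simpa using he)) Y hY
    rw [net_eq_sum] at this
    rw [← this]
    exact Finset.sum_congr rfl fun x _ => by rw [hφ.2.2 x])
  refine ⟨ψ, ?_⟩
  unfold FF
  rw [Finset.mem_filter]
  exact ⟨Finset.mem_univ _, fun e he => h1 e (by simpa using he), h2⟩

theorem card_FF_le (a b : E → V) (τ τ' : V → k) (T : Finset E)
    (hp : ∀ Y : Set V, ∑ x, ind k Y x * τ x = 0 → ∑ x, ind k Y x * τ' x = 0) :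
    (FF a b τ T).card ≤ (FF a b τ' T).card := by
  by_cases h : (FF a b τ T).Nonempty
  · obtain ⟨ψ, hψ⟩ := FF_nonempty a b τ τ' T hp h
    obtain ⟨φ, hφ⟩ := h
    unfold FF at hφ hψ
    rw [Finset.mem_filter] at hφ hψ
    refine Finset.card_le_card_of_injOn (fun χ e => (χ e - φ e) + ψ e) ?_ ?_
    · intro χ hχ
      have hχ' : χ ∈ FF a b τ T := by simpa using hχ
      unfold FF at hχ'
      rw [Finset.mem_filter] at hχ'
      have : (fun e => (χ e - φ e) + ψ e) ∈ FF a b τ' T := by
        unfold FF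
        rw [Finset.mem_filter]
        refine ⟨Finset.mem_univ _, fun e he => ?_, fun x => ?_⟩
        · simp [hχ'.2.1 e he, hφ.2.1 e he, hψ.2.1 e he]
        · rw [net_add, net_sub, hχ'.2.2, hφ.2.2, hψ.2.2]
          ring
      simpa using this
    · intro χ _ χ' _ h
      funext e
      have := congrFun h e
      simpa using this
  · rw [Finset.not_nonempty_iff_eq_empty] at h
    rw [h]
    simp

theorem card_FF_eq (a b : E → V) (τ τ' : V → k) (T : Finset E)
    (hp : ∀ Y : Set V, ∑ x, ind k Y x * τ x = 0 ↔ ∑ x, ind k Y x * τ' x = 0) :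
    (FF a b τ T).card = (FF a b τ' T).card :=
  le_antisymm (card_FF_le a b τ τ' T fun Y => (hp Y).1) (card_FF_le a b τ' τ T fun Y => (hp Y).2)

theorem card_GG_eq (a b : E → V) (τ τ' : V → k)
    (hp : ∀ Y : Set V, ∑ x, ind k Y x * τ x = 0 ↔ ∑ x, ind k Y x * τ' x = 0) (T : Finset E) :
    (GG a b τ T).card = (GG a b τ' T).card := by
  induction T using Finset.strongInduction with
  | H T ih =>
    have h1 := card_FF_eq a b τ τ' T hp
    rw [card_FF, card_FF, ← Finset.add_sum_erase _ _ (Finset.mem_powerset_self T),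
      ← Finset.add_sum_erase _ _ (Finset.mem_powerset_self T)] at h1
    have h2 : ∑ T' ∈ T.powerset.erase T, (GG a b τ T').card =
        ∑ T' ∈ T.powerset.erase T, (GG a b τ' T').card := by
      refine Finset.sum_congr rfl fun T' hT' => ?_
      rw [Finset.mem_erase, Finset.mem_powerset] at hT'
      exact ih T' (lt_of_le_of_ne hT'.2 hT'.1)
    omega

/-- Existence of a function with support `T` and boundary `τ` depends only on the zero sums
of `τ`. -/
theorem switch (a b : E → V) (τ τ' : V → k)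
    (hp : ∀ Y : Set V, ∑ x, ind k Y x * τ x = 0 ↔ ∑ x, ind k Y x * τ' x = 0) (T : Set E)
    (h : ∃ φ : E → k, (∀ e, φ e ≠ 0 ↔ e ∈ T) ∧ ∀ x, net a b φ {x} = τ x) :
    ∃ φ : E → k, (∀ e, φ e ≠ 0 ↔ e ∈ T) ∧ ∀ x, net a b φ {x} = τ' x := by
  obtain ⟨φ, h1, h2⟩ := h
  have h3 : (GG a b τ (Finset.univ.filter fun e => e ∈ T)).Nonempty := by
    refine ⟨φ, ?_⟩
    unfold GG
    simp only [Finset.mem_filter, Finset.mem_univ, true_and]
    exact ⟨h1, h2⟩
  have h4 : (GG a b τ' (Finset.univ.filter fun e => e ∈ T)).Nonempty := by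
    rw [← Finset.card_pos] at h3 ⊢
    rw [← card_GG_eq a b τ τ' hp]
    exact h3
  obtain ⟨ψ, hψ⟩ := h4
  unfold GG at hψ
  simp only [Finset.mem_filter, Finset.mem_univ, true_and] at hψ
  exact ⟨ψ, hψ.1, hψ.2⟩

end Pool.Agent.Lib_helper61.APX
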