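import Pool.Agent.Lib_helper61.APX.Emb
import Pool.Agent.Lib_helper61.APX.Switch

set_option autoImplicit false

/-!
# The reductions
-/

open Classical

namespace Pool.Agent.Lib_helper61.APX

instance fact5 : Fact (Nat.Prime 5) := ⟨by norm_num⟩

/-- a nowhere-zero `ZMod 5`-flow exists -/
def NZ {V E : Type} [Fintype E] (a b : E → V) : Prop :=
  ∃ φ : E → ZMod 5, (∀ x, net a b φ {x} = 0) ∧ ∀ e, φ e ≠ 0

/-- the induction hypothesis -/
def IH (γ N : ℕ) : Prop :=
  ∀ (V E : Type) [Fintype V] [Fintype E] (a b : E → V) (v : V),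
    Fintype.card V + Fintype.card E ≤ N → TEC a b → DualOfDefect γ a b v → NZ a b

variable {V E : Type} [Fintype V] [Fintype E]

/-- number of edges of the minor that leave `Y` -/
noncomputable def qcut (a b : E → V) (K D : Set E) (Y : Set V) : Finset E :=
  Finset.univ.filter fun e => (e ∉ K ∧ e ∉ D) ∧ ¬ (a e ∈ Y ↔ b e ∈ Y)

theorem mem_qcut (a b : E → V) (K D : Set E) (Y : Set V) (e : E) :
    e ∈ qcut a b K D Y ↔ (e ∉ K ∧ e ∉ D) ∧ ¬ (a e ∈ Y ↔ b e ∈ Y) := by
  unfold qcut
  rw [Finset.mem_filter]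
  exact ⟨fun h => h.2, fun h => ⟨Finset.mem_univ _, h⟩⟩

theorem mem_cut (a b : E → V) (Y : Set V) (e : E) :
    e ∈ cut a b Y ↔ ¬ (a e ∈ Y ↔ b e ∈ Y) := by
  unfold cut
  rw [Finset.mem_filter]
  exact ⟨fun h => h.2, fun h => ⟨Finset.mem_univ _, h⟩⟩

theorem minor_nz {γ N : ℕ} (ih : IH γ N) (a b : E → V) (v : V)
    (hN : Fintype.card V + Fintype.card E ≤ N + 1) (hemb : DualOfDefect γ a b v)
    (K D : Set E) (hne : ∃ e, e ∈ K ∨ e ∈ D)
    (h : ∀ Y : Set V, Closed a b K Y → Y.Nonempty → Yᶜ.Nonempty → 2 ≤ (qcut a b K D Y).card) :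
    ∃ φ : E → ZMod 5, (∀ e, e ∉ K → e ∉ D → φ e ≠ 0) ∧ (∀ e, e ∈ K ∨ e ∈ D → φ e = 0) ∧
      ∀ Y, Closed a b K Y → net a b φ Y = 0 := by
  haveI : Finite (QV a b K) := Quot.finite _
  haveI : Fintype (QV a b K) := Fintype.ofFinite _
  have h1 : Fintype.card (QV a b K) ≤ Fintype.card V :=
    Fintype.card_le_of_surjective (Quot.mk (Rel a b K)) Quot.mk_surjective
  have h2 : Fintype.card (QE K D) < Fintype.card E := by
    obtain ⟨e, he⟩ := hne
    apply Fintype.card_subtype_lt (x := e)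
    rintro ⟨h1, h2⟩
    rcases he with h | h
    · exact h1 h
    · exact h2 h
  obtain ⟨φ, hφ1, hφ2⟩ := ih (QV a b K) (QE K D) (qa a b K D) (qb a b K D) (Quot.mk _ v)
    (by omega) (tec_minor a b K D h) (emb_minor γ a b v K D hemb)
  refine ⟨ext0 K D φ, ?_, ?_, ?_⟩
  · intro e h3 h4
    unfold ext0
    rw [dif_pos ⟨h3, h4⟩]
    exact hφ2 _
  · intro e he
    unfold ext0
    rw [dif_neg]
    rintro ⟨h3, h4⟩
    rcases he with h | h
    · exact h3 h
    · exact h4 h
  · intro Y hY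
    obtain ⟨Y', rfl⟩ := exists_pre a b K Y hY
    rw [net_ext0]
    exact net_flow _ _ _ hφ1 Y'

theorem reduce_loop {γ N : ℕ} (ih : IH γ N) (a b : E → V) (v : V)
    (hN : Fintype.card V + Fintype.card E ≤ N + 1) (hemb : DualOfDefect γ a b v) (htec : TEC a b)
    (e0 : E) (he0 : a e0 = b e0) : NZ a b := by
  obtain ⟨φ, h1, h2, h3⟩ := minor_nz ih a b v hN hemb ∅ {e0} ⟨e0, Or.inr rfl⟩ (by
    intro Y _ hY hY'
    refine (htec Y hY hY').trans (Finset.card_le_card ?_)
    intro e he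
    rw [mem_cut] at he
    rw [mem_qcut]
    refine ⟨⟨Set.notMem_empty _, ?_⟩, he⟩
    rintro rfl
    exact he (by rw [he0]))
  refine ⟨fun e => φ e + (Pi.single e0 (1 : ZMod 5) : E → ZMod 5) e, ?_, ?_⟩
  · intro x
    rw [net_add, net_single, he0, sub_self, add_zero]
    exact h3 _ (fun e he => absurd he (Set.notMem_empty _))
  · intro e
    show φ e + (Pi.single e0 (1 : ZMod 5) : E → ZMod 5) e ≠ 0
    by_cases he : e = e0
    · subst he
      rw [h2 e (Or.inr rfl), Pi.single_eq_same]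
      decide
    · rw [Pi.single_eq_of_ne he, add_zero]
      exact h1 e (Set.notMem_empty _) he

theorem reduce_two {γ N : ℕ} (ih : IH γ N) (a b : E → V) (v : V)
    (hN : Fintype.card V + Fintype.card E ≤ N + 1) (hemb : DualOfDefect γ a b v) (htec : TEC a b)
    (Y0 : Set V) (h0 : (cut a b Y0).card = 2) : NZ a b := by
  obtain ⟨e0, f0, hne, hcut⟩ := Finset.card_eq_two.1 h0
  have hmem : ∀ e, e ∈ cut a b Y0 ↔ ¬ (a e ∈ Y0 ↔ b e ∈ Y0) := mem_cut a b Y0
  obtain ⟨φ, h1, h2, h3⟩ := minor_nz ih a b v hN hemb {e0} ∅ ⟨e0, Or.inl rfl⟩ (by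
    intro Y hc hY hY'
    refine (htec Y hY hY').trans (Finset.card_le_card ?_)
    intro e he
    rw [mem_cut] at he
    rw [mem_qcut]
    refine ⟨⟨?_, Set.notMem_empty _⟩, he⟩
    intro h
    exact he (hc e h))
  obtain ⟨ψ, h4, h5⟩ := extend a b {e0} φ h3
  refine ⟨ψ, h5, ?_⟩
  have hf : ψ f0 ≠ 0 := by
    have hf1 : f0 ∉ ({e0} : Set E) := fun h => hne h.symm
    rw [h4 f0 hf1]
    exact h1 f0 hf1 (Set.notMem_empty _)
  intro e
  by_cases he : e = e0
  · subst he
    intro hz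
    have h6 := net_flow a b ψ h5 Y0
    unfold net at h6
    rw [Finset.sum_eq_single f0] at h6
    · have h7 : f0 ∈ cut a b Y0 := by
        rw [hcut]
        simp
      rw [hmem] at h7
      rcases mul_eq_zero.1 h6 with h | h
      · exact hf h
      · unfold ind at h
        by_cases h8 : a f0 ∈ Y0
        · have h9 : b f0 ∉ Y0 := fun h => h7 (iff_of_true h8 h)
          rw [if_pos h8, if_neg h9] at h
          exact absurd h (by decide)
        · have h9 : b f0 ∈ Y0 := by
            by_contra h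
            exact h7 (iff_of_false h8 h)
          rw [if_neg h8, if_pos h9] at h
          exact absurd h (by decide)
    · intro g _ hg
      by_cases hge : g = e
      · rw [hge, hz, zero_mul]
      · have h8 : g ∉ cut a b Y0 := by
          rw [hcut]
          simp [hge, hg]
        rw [hmem, not_not] at h8
        have : ind (ZMod 5) Y0 (a g) = ind (ZMod 5) Y0 (b g) := by
          unfold ind
          simp only [h8]
        rw [this, sub_self, mul_zero]
    · intro h
      exact absurd (Finset.mem_univ _) h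
  · have hf1 : e ∉ ({e0} : Set E) := he
    rw [h4 e hf1]
    exact h1 e hf1 (Set.notMem_empty _)

end Pool.Agent.Lib_helper61.APX
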