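import Pool.Agent.Lib_helper61.APX.Reduce

set_option autoImplicit false

/-!
# Nontrivial cuts with three edges
-/

open Classical

namespace Pool.Agent.Lib_helper61.APX

variable {V E : Type} [Fintype V] [Fintype E]

theorem three_sum (u1 u2 u3 : ZMod 5) (h1 : u1 ≠ 0) (h2 : u2 ≠ 0) (h3 : u3 ≠ 0)
    (h : u1 + u2 + u3 = 0) (p q r : Prop) :
    (if p then u1 else 0) + (if q then u2 else 0) + (if r then u3 else 0) = 0 ↔
      ((p ↔ q) ∧ (q ↔ r)) := by
  have h12 : u1 + u2 ≠ 0 := fun h' => h3 (by rwa [h', zero_add] at h)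
  have h23 : u2 + u3 ≠ 0 := fun h' => h1 (by rwa [add_assoc, h', add_zero] at h)
  have h13 : u1 + u3 ≠ 0 := fun h' => h2 (by
    have : u1 + u3 + u2 = 0 := by rw [← h]; ring
    rwa [h', zero_add] at this)
  by_cases hp : p <;> by_cases hq : q <;> by_cases hr : r <;>
    simp [hp, hq, hr, h, h1, h2, h3, h12, h13, h23]

/-- the end of `e` in `Y0` lies in `Y` -/
def PP (a b : E → V) (Y0 Y : Set V) (e : E) : Prop :=
  (a e ∈ Y ∧ a e ∈ Y0) ∨ (b e ∈ Y ∧ b e ∈ Y0)

theorem cut_term (a b : E → V) (Y0 Y : Set V) (ψ : E → ZMod 5) (e : E)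
    (he : ¬ (a e ∈ Y0 ↔ b e ∈ Y0)) :
    ψ e * (ind (ZMod 5) (Y ∩ Y0) (a e) - ind (ZMod 5) (Y ∩ Y0) (b e)) =
      if PP a b Y0 Y e then ψ e * (ind (ZMod 5) Y0 (a e) - ind (ZMod 5) Y0 (b e)) else 0 := by
  unfold PP ind
  simp only [Set.mem_inter_iff]
  by_cases h1 : a e ∈ Y0
  · have h2 : b e ∉ Y0 := fun h => he (iff_of_true h1 h)
    by_cases h3 : a e ∈ Y <;> simp [h1, h2, h3]
  · have h2 : b e ∈ Y0 := by
      by_contra h
      exact he (iff_of_false h1 h)
    by_cases h3 : b e ∈ Y <;> simp [h1, h2, h3]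

theorem pattern (a b : E → V) (Y0 : Set V) (e1 e2 e3 : E) (h12 : e1 ≠ e2) (h13 : e1 ≠ e3)
    (h23 : e2 ≠ e3) (hcut : cut a b Y0 = {e1, e2, e3}) (ψ : E → ZMod 5)
    (hz : ∀ e, a e ∈ Y0 → b e ∈ Y0 → ψ e = 0) (hn : ∀ e, e ∈ cut a b Y0 → ψ e ≠ 0)
    (hY0 : net a b ψ Y0 = 0) (Y : Set V) :
    net a b ψ (Y ∩ Y0) = 0 ↔
      ((PP a b Y0 Y e1 ↔ PP a b Y0 Y e2) ∧ (PP a b Y0 Y e2 ↔ PP a b Y0 Y e3)) := by
  have hsum : ∀ Z : Set V, Z ⊆ Y0 → net a b ψ Z =
      ∑ e ∈ cut a b Y0, ψ e * (ind (ZMod 5) Z (a e) - ind (ZMod 5) Z (b e)) := by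
    intro Z hZ
    unfold net
    symm
    apply Finset.sum_subset (Finset.subset_univ _)
    intro e _ he
    rw [mem_cut, not_not] at he
    by_cases h1 : a e ∈ Y0
    · rw [hz e h1 (he.1 h1), zero_mul]
    · have h2 : b e ∉ Y0 := fun h => h1 (he.2 h)
      unfold ind
      rw [if_neg (fun h => h1 (hZ h)), if_neg (fun h => h2 (hZ h)), sub_zero, mul_zero]
  have hm : ∀ e ∈ ({e1, e2, e3} : Finset E), ¬ (a e ∈ Y0 ↔ b e ∈ Y0) := by
    intro e he
    rw [← hcut, mem_cut] at he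
    exact he
  have hm1 := hm e1 (by simp)
  have hm2 := hm e2 (by simp)
  have hm3 := hm e3 (by simp)
  have hn1 := hn e1 ((mem_cut a b Y0 e1).2 hm1)
  have hn2 := hn e2 ((mem_cut a b Y0 e2).2 hm2)
  have hn3 := hn e3 ((mem_cut a b Y0 e3).2 hm3)
  have hs : ∀ e, ¬ (a e ∈ Y0 ↔ b e ∈ Y0) →
      ind (ZMod 5) Y0 (a e) - ind (ZMod 5) Y0 (b e) ≠ 0 := by
    intro e he
    unfold ind
    by_cases h1 : a e ∈ Y0
    · have h2 : b e ∉ Y0 := fun h => he (iff_of_true h1 h)
      rw [if_pos h1, if_neg h2]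
      decide
    · have h2 : b e ∈ Y0 := by
        by_contra h
        exact he (iff_of_false h1 h)
      rw [if_neg h1, if_pos h2]
      decide
  have h3 := three_sum _ _ _ (mul_ne_zero hn1 (hs e1 hm1)) (mul_ne_zero hn2 (hs e2 hm2))
    (mul_ne_zero hn3 (hs e3 hm3)) (by
      rw [← hY0, hsum Y0 (le_refl _), hcut, Finset.sum_insert (by simp [h12, h13]),
        Finset.sum_insert (by simp [h23]), Finset.sum_singleton]
      ring) (PP a b Y0 Y e1) (PP a b Y0 Y e2) (PP a b Y0 Y e3)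
  rw [← h3, hsum (Y ∩ Y0) Set.inter_subset_right, hcut, Finset.sum_insert (by simp [h12, h13]),
    Finset.sum_insert (by simp [h23]), Finset.sum_singleton, cut_term a b Y0 Y ψ e1 hm1,
    cut_term a b Y0 Y ψ e2 hm2, cut_term a b Y0 Y ψ e3 hm3, add_assoc]

/-- a side of a 3-cut with two vertices has an edge -/
theorem inner_edge (a b : E → V) (Y0 : Set V)
    (h3 : ∀ Y : Set V, Y.Nonempty → Yᶜ.Nonempty → 3 ≤ (cut a b Y).card)
    (h0 : (cut a b Y0).card = 3) (p q : V) (hpq : p ≠ q) (hp : p ∈ Y0) (hq : q ∈ Y0) :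
    ∃ e, a e ∈ Y0 ∧ b e ∈ Y0 := by
  by_contra hno
  have key : ∀ z ∈ Y0, ∀ z' , z' ≠ z → cut a b {z} = cut a b Y0 := by
    intro z hz z' hz'
    apply Finset.eq_of_subset_of_card_le
    · intro e he
      rw [mem_cut] at he ⊢
      intro h
      by_cases h1 : a e ∈ Y0
      · exact hno ⟨e, h1, h.1 h1⟩
      · have h2 : b e ∉ Y0 := fun h' => h1 (h.2 h')
        apply he
        constructor
        · intro h'
          rw [Set.mem_singleton_iff] at h'
          rw [h'] at h1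
          exact absurd hz h1
        · intro h'
          rw [Set.mem_singleton_iff] at h'
          rw [h'] at h2
          exact absurd hz h2
    · rw [h0]
      exact h3 {z} ⟨z, rfl⟩ ⟨z', hz'⟩
  have h1 := key p hp q hpq.symm
  have h2 := key q hq p hpq
  obtain ⟨e, he⟩ : (cut a b Y0).Nonempty := by
    rw [← Finset.card_pos, h0]
    norm_num
  have e1 : e ∈ cut a b {p} := by rw [h1]; exact he
  have e2 : e ∈ cut a b {q} := by rw [h2]; exact he
  rw [mem_cut] at he e1 e2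
  simp only [Set.mem_singleton_iff] at e1 e2
  by_cases h3 : a e ∈ Y0
  · have h4 : b e ∉ Y0 := fun h => he (iff_of_true h3 h)
    have h5 : b e ≠ p := fun h => h4 (h ▸ hp)
    have h6 : b e ≠ q := fun h => h4 (h ▸ hq)
    have h7 : a e = p := by
      by_contra h
      exact e1 (iff_of_false h h5)
    have h8 : a e = q := by
      by_contra h
      exact e2 (iff_of_false h h6)
    exact hpq (h7.symm.trans h8)
  · have h5 : a e ≠ p := fun h => h3 (h ▸ hp)
    have h6 : a e ≠ q := fun h => h3 (h ▸ hq)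
    have h7 : b e = p := by
      by_contra h
      exact e1 (iff_of_false h5 h)
    have h8 : b e = q := by
      by_contra h
      exact e2 (iff_of_false h6 h)
    exact hpq (h7.symm.trans h8)

theorem cut_compl (a b : E → V) (Y : Set V) : cut a b Yᶜ = cut a b Y := by
  ext e
  rw [mem_cut, mem_cut, Set.mem_compl_iff, Set.mem_compl_iff]
  by_cases h1 : a e ∈ Y <;> by_cases h2 : b e ∈ Y <;> simp [h1, h2]

theorem reduce_three {γ N : ℕ} (ih : IH γ N) (a b : E → V) (v : V)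
    (hN : Fintype.card V + Fintype.card E ≤ N + 1) (hemb : DualOfDefect γ a b v)
    (h3 : ∀ Y : Set V, Y.Nonempty → Yᶜ.Nonempty → 3 ≤ (cut a b Y).card)
    (Y0 : Set V) (h0 : (cut a b Y0).card = 3) (hin : ∃ p q, p ≠ q ∧ p ∈ Y0 ∧ q ∈ Y0)
    (hout : ∃ p q, p ≠ q ∧ p ∉ Y0 ∧ q ∉ Y0) : NZ a b := by
  obtain ⟨e1, e2, e3, h12, h13, h23, hcut⟩ := Finset.card_eq_three.1 h0
  set K1 : Set E := {e | a e ∈ Y0 ∧ b e ∈ Y0} with hK1
  set K2 : Set E := {e | a e ∉ Y0 ∧ b e ∉ Y0} with hK2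
  obtain ⟨p, q, hpq, hp, hq⟩ := hin
  obtain ⟨p', q', hpq', hp', hq'⟩ := hout
  obtain ⟨f1, hf1⟩ := inner_edge a b Y0 h3 h0 p q hpq hp hq
  obtain ⟨f2, hf2⟩ := inner_edge a b Y0ᶜ h3 (by rw [cut_compl]; exact h0) p' q' hpq' hp' hq'
  have hmin : ∀ K : Set E, ∀ Y : Set V, Closed a b K Y → Y.Nonempty → Yᶜ.Nonempty →
      2 ≤ (qcut a b K ∅ Y).card := by
    intro K Y hc hY hY'
    refine (le_trans (by norm_num) (h3 Y hY hY')).trans (Finset.card_le_card ?_)
    intro e he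
    rw [mem_cut] at he
    rw [mem_qcut]
    refine ⟨⟨?_, Set.notMem_empty _⟩, he⟩
    intro h
    exact he (hc e h)
  obtain ⟨φ, hφ1, hφ2, hφ3⟩ := minor_nz ih a b v hN hemb K1 ∅ ⟨f1, Or.inl hf1⟩ (hmin K1)
  obtain ⟨χ, hχ1, hχ2, hχ3⟩ := minor_nz ih a b v hN hemb K2 ∅ ⟨f2, Or.inl hf2⟩ (hmin K2)
  -- the part of `χ` inside `Y0` and the rest
  set χ1 : E → ZMod 5 := fun e => if e ∈ K1 then χ e else 0 with hχ1def
  set χ0 : E → ZMod 5 := fun e => χ e - χ1 e with hχ0def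
  have hcl1 : Closed a b K1 Y0 := fun e he => iff_of_true he.1 he.2
  have hcl2 : ∀ Y : Set V, Y ⊆ Y0 → Closed a b K2 Y :=
    fun Y hY e he => iff_of_false (fun h => he.1 (hY h)) (fun h => he.2 (hY h))
  have hcutK1 : ∀ e, e ∈ cut a b Y0 → e ∉ K1 := by
    intro e he h
    rw [mem_cut] at he
    exact he (iff_of_true h.1 h.2)
  have hcutK2 : ∀ e, e ∈ cut a b Y0 → e ∉ K2 := by
    intro e he h
    rw [mem_cut] at he
    exact he (iff_of_false h.1 h.2)
  have hp1 := pattern a b Y0 e1 e2 e3 h12 h13 h23 hcut φ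
    (fun e h h' => hφ2 e (Or.inl ⟨h, h'⟩))
    (fun e he => hφ1 e (hcutK1 e he) (Set.notMem_empty _)) (hφ3 Y0 hcl1)
  have hnetχ1 : ∀ Y : Set V, net a b χ1 Y = net a b χ1 (Y ∩ Y0) := by
    intro Y
    unfold net
    refine Finset.sum_congr rfl fun e _ => ?_
    by_cases he : e ∈ K1
    · have h1 : ind (ZMod 5) Y (a e) = ind (ZMod 5) (Y ∩ Y0) (a e) := by
        unfold ind
        simp only [Set.mem_inter_iff, he.1, and_true]
      have h2 : ind (ZMod 5) Y (b e) = ind (ZMod 5) (Y ∩ Y0) (b e) := by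
        unfold ind
        simp only [Set.mem_inter_iff, he.2, and_true]
      rw [h1, h2]
    · have : χ1 e = 0 := if_neg he
      rw [this, zero_mul, zero_mul]
  have hχ0net : ∀ Y : Set V, net a b χ0 (Y ∩ Y0) = - net a b χ1 Y := by
    intro Y
    rw [hχ0def, net_sub, hχ3 _ (hcl2 _ Set.inter_subset_right), zero_sub, ← hnetχ1]
  have hK1Y0 : net a b χ1 Y0 = 0 := net_closed a b K1 χ1 (fun e he => if_neg he) Y0 hcl1
  have hp2 := pattern a b Y0 e1 e2 e3 h12 h13 h23 hcut χ0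
    (fun e h h' => by
      have : χ1 e = χ e := if_pos ⟨h, h'⟩
      simp only [hχ0def, this, sub_self])
    (fun e he => by
      have : χ1 e = 0 := if_neg (hcutK1 e he)
      simp only [hχ0def, this, sub_zero]
      exact hχ1 e (hcutK2 e he) (Set.notMem_empty _))
    (by
      have := hχ0net Y0
      rw [Set.inter_self, hK1Y0, neg_zero] at this
      exact this)
  obtain ⟨ψ, hψ1, hψ2⟩ := switch a b (fun x => net a b χ1 {x})
    (fun x => if x ∈ Y0 then - net a b φ {x} else 0) (by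
      intro Y
      have h1 : ∑ x, ind (ZMod 5) Y x * net a b χ1 {x} = net a b χ1 Y := (net_eq_sum _ _ _ _).symm
      have h2 : ∑ x, ind (ZMod 5) Y x * (if x ∈ Y0 then - net a b φ {x} else 0) =
          - net a b φ (Y ∩ Y0) := by
        rw [net_eq_sum a b φ (Y ∩ Y0), ← Finset.sum_neg_distrib]
        refine Finset.sum_congr rfl fun x _ => ?_
        unfold ind
        simp only [Set.mem_inter_iff]
        by_cases hx : x ∈ Y <;> by_cases hx' : x ∈ Y0 <;> simp [hx, hx']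
      rw [h1, h2, neg_eq_zero, hp1 Y, ← hp2 Y, hχ0net, neg_eq_zero]) K1
    ⟨χ1, fun e => by
      by_cases he : e ∈ K1
      · have : χ1 e = χ e := if_pos he
        rw [this]
        refine iff_of_true (hχ1 e (fun h => h.1 he.1) (Set.notMem_empty _)) he
      · have : χ1 e = 0 := if_neg he
        rw [this]
        exact iff_of_false (by simp) he, fun x => rfl⟩
  refine ⟨fun e => φ e + ψ e, ?_, ?_⟩
  · intro x
    rw [net_add, hψ2]
    by_cases hx : x ∈ Y0
    · rw [if_pos hx, add_neg_cancel]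
    · rw [if_neg hx, add_zero]
      apply hφ3
      intro e he
      refine iff_of_false (fun h => hx ?_) (fun h => hx ?_)
      · rw [Set.mem_singleton_iff] at h
        exact h ▸ he.1
      · rw [Set.mem_singleton_iff] at h
        exact h ▸ he.2
  · intro e
    show φ e + ψ e ≠ 0
    by_cases he : e ∈ K1
    · rw [hφ2 e (Or.inl he), zero_add]
      exact (hψ1 e).2 he
    · have : ψ e = 0 := by
        by_contra h
        exact he ((hψ1 e).1 h)
      rw [this, add_zero]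
      exact hφ1 e he (Set.notMem_empty _)

end Pool.Agent.Lib_helper61.APX
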