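import Pool.Agent.Lib_helper61.APX.Circ

set_option autoImplicit false

/-!
# Non-backtracking walks and circuits
-/

open Classical

namespace Pool.Agent.Lib_helper61.APX

variable {V E : Type}

/-- `e` joins `p` and `q` -/
def J (a b : E → V) (e : E) (p q : V) : Prop := (a e = p ∧ b e = q) ∨ (b e = p ∧ a e = q)

theorem J.symm {a b : E → V} {e : E} {p q : V} (h : J a b e p q) : J a b e q p := by
  rcases h with ⟨h1, h2⟩ | ⟨h1, h2⟩
  · exact Or.inr ⟨h2, h1⟩
  · exact Or.inl ⟨h2, h1⟩

theorem J.det {a b : E → V} {e : E} {p p' q : V} (h : J a b e p q) (h' : J a b e p' q) :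
    p = p' := by
  rcases h with ⟨h1, h2⟩ | ⟨h1, h2⟩ <;> rcases h' with ⟨h3, h4⟩ | ⟨h3, h4⟩
  · rw [← h1, h3]
  · rw [← h1, h4, ← h2, h3]
  · rw [← h1, h4, ← h2, h3]
  · rw [← h1, h3]

/-- non-backtracking walk of length `ℓ` -/
def NBW (a b : E → V) (x : ℕ → V) (c : ℕ → E) (ℓ : ℕ) : Prop :=
  (∀ i, i < ℓ → J a b (c i) (x i) (x (i + 1))) ∧ ∀ i, i + 1 < ℓ → c i ≠ c (i + 1)

/-- circuit of length `ℓ` -/
structure CC (a b : E → V) (ℓ : ℕ) (x : ℕ → V) (c : ℕ → E) : Prop where
  step : ∀ i, i < ℓ → J a b (c i) (x i) (x (i + 1))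
  closed : x 0 = x ℓ
  xinj : ∀ i j, i < j → j < ℓ → x i ≠ x j
  cinj : ∀ i j, i < j → j < ℓ → c i ≠ c j

theorem CC.toCirc {a b : E → V} {ℓ : ℕ} [NeZero ℓ] {x : ℕ → V} {c : ℕ → E} (h : CC a b ℓ x c) :
    Circ a b ℓ (fun i => x i.val) (fun i => c i.val) where
  step := by
    intro i
    have h1 := h.step i.val i.isLt
    have h2 : x ((i + 1 : Fin ℓ).val) = x (i.val + 1) := by
      have h3 : (i + 1 : Fin ℓ).val = (i.val + 1) % ℓ := by
        rw [Fin.val_add, Fin.val_one', Nat.add_mod_mod]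
      by_cases h4 : i.val + 1 < ℓ
      · rw [h3, Nat.mod_eq_of_lt h4]
      · have h5 : i.val + 1 = ℓ := le_antisymm i.isLt (not_lt.1 h4)
        rw [h3, h5, Nat.mod_self]
        exact h.closed
    show (a (c i.val) = x i.val ∧ b (c i.val) = x ((i + 1 : Fin ℓ).val)) ∨
      (b (c i.val) = x i.val ∧ a (c i.val) = x ((i + 1 : Fin ℓ).val))
    rw [h2]
    exact h1
  xinj := by
    intro i j hij
    by_contra hne
    rcases lt_or_gt_of_ne (fun h' => hne (Fin.ext h')) with h1 | h1
    · exact h.xinj i j h1 j.isLt hij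
    · exact h.xinj j i h1 i.isLt hij.symm
  cinj := by
    intro i j hij
    by_contra hne
    rcases lt_or_gt_of_ne (fun h' => hne (Fin.ext h')) with h1 | h1
    · exact h.cinj i j h1 j.isLt hij
    · exact h.cinj j i h1 i.isLt hij.symm

/-- A closed non-backtracking walk contains a circuit. -/
theorem cc_of_closed {a b : E → V} (hnl : ∀ e, a e ≠ b e) (S : Set E) {x : ℕ → V} {c : ℕ → E}
    {L : ℕ} (hL : 1 ≤ L) (h : NBW a b x c L) (hcl : x 0 = x L) (hS : ∀ i, i < L → c i ∈ S) :
    ∃ (ℓ : ℕ) (x' : ℕ → V) (c' : ℕ → E), 2 ≤ ℓ ∧ ℓ ≤ L ∧ CC a b ℓ x' c' ∧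
      ∀ i, i < ℓ → c' i ∈ S := by
  have hex : ∃ ℓ, 1 ≤ ℓ ∧ ∃ (x : ℕ → V) (c : ℕ → E), NBW a b x c ℓ ∧ x 0 = x ℓ ∧
      ∀ i, i < ℓ → c i ∈ S := ⟨L, hL, x, c, h, hcl, hS⟩
  have hmin := fun m hm => Nat.find_min hex (m := m) hm
  have hle : Nat.find hex ≤ L := Nat.find_min' hex ⟨hL, x, c, h, hcl, hS⟩
  obtain ⟨h1, x', c', h2, h3, h4⟩ := Nat.find_spec hex
  set ℓ := Nat.find hex with hℓ
  have hxinj : ∀ i j, i < j → j < ℓ → x' i ≠ x' j := by
    intro i j hij hj hx
    apply hmin (j - i) (by omega)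
    refine ⟨by omega, fun k => x' (i + k), fun k => c' (i + k), ⟨?_, ?_⟩, ?_, ?_⟩
    · intro k hk
      exact h2.1 (i + k) (by omega)
    · intro k hk
      exact h2.2 (i + k) (by omega)
    · show x' (i + 0) = x' (i + (j - i))
      rw [add_zero, show i + (j - i) = j by omega]
      exact hx
    · intro k hk
      exact h4 (i + k) (by omega)
  refine ⟨ℓ, x', c', ?_, hle, ⟨h2.1, h3, hxinj, ?_⟩, h4⟩
  · by_contra hlt
    have h5 : ℓ = 1 := by omega
    have h6 := h2.1 0 (by omega)
    rw [h5] at h3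
    rcases h6 with ⟨h7, h8⟩ | ⟨h7, h8⟩
    · exact hnl (c' 0) (h7.trans (h3.trans h8.symm))
    · exact hnl (c' 0) (h8.trans (h3.symm.trans h7.symm))
  · intro i j hij hj hc
    have h5 := h2.1 i (by omega)
    have h6 := h2.1 j hj
    rw [← hc] at h6
    have h7 : x' (i + 1) = x' j := by
      rcases h5 with ⟨h7, h8⟩ | ⟨h7, h8⟩ <;> rcases h6 with ⟨h9, h10⟩ | ⟨h9, h10⟩
      · exact absurd (h7.symm.trans h9) (hxinj i j hij hj)
      · exact h8.symm.trans h9
      · exact h8.symm.trans h9
      · exact absurd (h7.symm.trans h9) (hxinj i j hij hj)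
    by_cases h8 : i + 1 < j
    · exact hxinj (i + 1) j h8 hj h7
    · have h9 : j = i + 1 := by omega
      subst h9
      exact h2.2 i hj hc

/-- `p` is an end of `e` -/
def Inc (a b : E → V) (p : V) (e : E) : Prop := a e = p ∨ b e = p

/-- the other end -/
noncomputable def oth (a b : E → V) (p : V) (e : E) : V := if a e = p then b e else a e

theorem J_oth {a b : E → V} {p : V} {e : E} (h : Inc a b p e) : J a b e p (oth a b p e) := by
  unfold oth
  by_cases h1 : a e = p
  · rw [if_pos h1]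
    exact Or.inl ⟨h1, rfl⟩
  · rw [if_neg h1]
    rcases h with h | h
    · exact absurd h h1
    · exact Or.inr ⟨h, rfl⟩

theorem inc_of_J {a b : E → V} {p q : V} {e : E} (h : J a b e p q) : Inc a b q e := by
  rcases h with ⟨_, h⟩ | ⟨_, h⟩
  · exact Or.inr h
  · exact Or.inl h

/-- Sets of edges without ends contain circuits. -/
theorem cc_of_set [Fintype V] {a b : E → V} (hnl : ∀ e, a e ≠ b e) (S : Finset E)
    (hne : S.Nonempty) (hS : ∀ e ∈ S, ∀ p, Inc a b p e → ∃ f ∈ S, f ≠ e ∧ Inc a b p f) :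
    ∃ (ℓ : ℕ) (x : ℕ → V) (c : ℕ → E), 2 ≤ ℓ ∧ ℓ ≤ S.card ∧ CC a b ℓ x c := by
  obtain ⟨e0, he0⟩ := hne
  have hstep : ∀ d : {d : V × E // d.2 ∈ S ∧ Inc a b d.1 d.2},
      ∃ d' : {d : V × E // d.2 ∈ S ∧ Inc a b d.1 d.2},
        J a b d.1.2 d.1.1 d'.1.1 ∧ d.1.2 ≠ d'.1.2 := by
    rintro ⟨⟨p, e⟩, h1, h2⟩
    have h3 := J_oth h2
    obtain ⟨f, hf1, hf2, hf3⟩ := hS e h1 _ (inc_of_J h3)
    exact ⟨⟨⟨oth a b p e, f⟩, hf1, hf3⟩, h3, hf2.symm⟩
  choose nxt hn1 hn2 using hstep
  set st : ℕ → {d : V × E // d.2 ∈ S ∧ Inc a b d.1 d.2} :=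
    fun k => nxt^[k] ⟨⟨a e0, e0⟩, he0, Or.inl rfl⟩ with hst
  have hsucc : ∀ k, st (k + 1) = nxt (st k) := by
    intro k
    show nxt^[k + 1] _ = nxt (nxt^[k] _)
    rw [Function.iterate_succ_apply']
  obtain ⟨i, j, hij, hx⟩ : ∃ i j, i < j ∧ (st i).1.1 = (st j).1.1 := by
    obtain ⟨i, j, hne, hx⟩ := Finite.exists_ne_map_eq_of_infinite (fun k => (st k).1.1)
    rcases lt_or_gt_of_ne hne with h | h
    · exact ⟨i, j, h, hx⟩
    · exact ⟨j, i, h, hx.symm⟩
  obtain ⟨ℓ, x, c, h1, h2, h3, h4⟩ := cc_of_closed hnl (S : Set E) (L := j - i)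
    (x := fun k => (st (i + k)).1.1) (c := fun k => (st (i + k)).1.2) (by omega) (by
      refine ⟨?_, ?_⟩
      · intro k _
        show J a b (st (i + k)).1.2 (st (i + k)).1.1 (st (i + k + 1)).1.1
        rw [hsucc]
        exact hn1 _
      · intro k _
        show (st (i + k)).1.2 ≠ (st (i + k + 1)).1.2
        rw [hsucc]
        exact hn2 _) (by
      show (st (i + 0)).1.1 = (st (i + (j - i))).1.1
      rw [add_zero, show i + (j - i) = j by omega]
      exact hx) (by
      intro k _
      exact (st (i + k)).2.1)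
  refine ⟨ℓ, x, c, h1, ?_, h3⟩
  have h5 : ((Finset.range ℓ).image c).card = ℓ := by
    rw [Finset.card_image_of_injOn, Finset.card_range]
    intro p hp q hq hpq
    rw [Finset.coe_range, Set.mem_Iio] at hp hq
    by_contra hne
    rcases lt_or_gt_of_ne hne with h | h
    · exact h3.cinj p q h hq hpq
    · exact h3.cinj q p h hp hpq.symm
  rw [← h5]
  apply Finset.card_le_card
  intro e he
  rw [Finset.mem_image] at he
  obtain ⟨k, hk, rfl⟩ := he
  exact h4 k (Finset.mem_range.1 hk)

/-- no circuits of length at most six -/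
def NoCC (a b : E → V) : Prop := ∀ ℓ, 2 ≤ ℓ → ℓ ≤ 6 → ∀ x c, ¬ CC a b ℓ x c

theorem closed_empty {a b : E → V} (hnl : ∀ e, a e ≠ b e) (hno : NoCC a b) {x : ℕ → V}
    {c : ℕ → E} {L : ℕ} (h : NBW a b x c L) (hcl : x 0 = x L) (hL : L ≤ 6) : L = 0 := by
  by_contra hne
  obtain ⟨ℓ, x', c', h1, h2, h3, _⟩ := cc_of_closed hnl Set.univ (by omega) h hcl
    (fun _ _ => Set.mem_univ _)
  exact hno ℓ h1 (by omega) x' c' h3

theorem two_walks {a b : E → V} (hnl : ∀ e, a e ≠ b e) (hno : NoCC a b) {x y : ℕ → V}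
    {c d : ℕ → E} (h0 : x 0 = y 0) : ∀ i j, i + j ≤ 6 → NBW a b x c i → NBW a b y d j →
      x i = y j → i = j ∧ ∀ k, k < i → c k = d k := by
  intro i
  induction i with
  | zero =>
    intro j hj _ h2 h3
    have := closed_empty hnl hno h2 (by rw [← h0]; exact h3) (by omega)
    exact ⟨this.symm, fun k hk => absurd hk (Nat.not_lt_zero k)⟩
  | succ i ih =>
    intro j hj h1 h2 h3
    cases j with
    | zero =>
      have := closed_empty hnl hno h1 (by rw [h0]; exact h3.symm) (by omega)
      exact absurd this (by omega)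
    | succ j =>
      by_cases hcd : c i = d j
      · have hJ1 := h1.1 i (by omega)
        have hJ2 := h2.1 j (by omega)
        rw [hcd, h3] at hJ1
        have hx := hJ1.det hJ2
        obtain ⟨h4, h5⟩ := ih j (by omega) ⟨fun k hk => h1.1 k (by omega),
          fun k hk => h1.2 k (by omega)⟩ ⟨fun k hk => h2.1 k (by omega),
          fun k hk => h2.2 k (by omega)⟩ hx
        refine ⟨by omega, fun k hk => ?_⟩
        by_cases hki : k < i
        · exact h5 k hki
        · have : k = i := by omega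
          rw [this, hcd, h4]
      · exfalso
        have := closed_empty hnl hno (L := (i + 1) + (j + 1))
          (x := fun k => if k ≤ i + 1 then x k else y ((i + 1) + (j + 1) - k))
          (c := fun k => if k < i + 1 then c k else d ((i + 1) + (j + 1) - 1 - k)) (by
            refine ⟨?_, ?_⟩
            · intro k hk
              by_cases hk1 : k < i + 1
              · simp only [if_pos (show k ≤ i + 1 by omega), if_pos (show k + 1 ≤ i + 1 by omega),
                  if_pos hk1]
                exact h1.1 k hk1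
              · have hz : (if k ≤ i + 1 then x k else y ((i + 1) + (j + 1) - k)) =
                    y ((i + 1) + (j + 1) - k) := by
                  by_cases hk2 : k ≤ i + 1
                  · have hk3 : k = i + 1 := by omega
                    rw [if_pos hk2, hk3, h3]
                    congr 1
                    omega
                  · rw [if_neg hk2]
                simp only [hz, if_neg (show ¬ k + 1 ≤ i + 1 by omega), if_neg hk1]
                have h6 := (h2.1 ((i + 1) + (j + 1) - 1 - k) (by omega)).symm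
                rw [show (i + 1) + (j + 1) - 1 - k + 1 = (i + 1) + (j + 1) - k by omega] at h6
                rw [show (i + 1) + (j + 1) - (k + 1) = (i + 1) + (j + 1) - 1 - k by omega]
                exact h6
            · intro k hk
              show (if k < i + 1 then c k else d ((i + 1) + (j + 1) - 1 - k)) ≠
                (if k + 1 < i + 1 then c (k + 1) else d ((i + 1) + (j + 1) - 1 - (k + 1)))
              by_cases hk1 : k + 1 < i + 1
              · rw [if_pos (show k < i + 1 by omega), if_pos hk1]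
                exact h1.2 k hk1
              · by_cases hk2 : k < i + 1
                · have hk3 : k = i := by omega
                  rw [if_pos hk2, if_neg hk1, hk3,
                    show (i + 1) + (j + 1) - 1 - (i + 1) = j by omega]
                  exact hcd
                · rw [if_neg hk2, if_neg hk1]
                  have h6 := h2.2 ((i + 1) + (j + 1) - 1 - (k + 1)) (by omega)
                  rw [show (i + 1) + (j + 1) - 1 - (k + 1) + 1 = (i + 1) + (j + 1) - 1 - k by
                    omega] at h6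
                  exact h6.symm) (by
            show (if 0 ≤ i + 1 then x 0 else y ((i + 1) + (j + 1) - 0)) =
              (if (i + 1) + (j + 1) ≤ i + 1 then x ((i + 1) + (j + 1))
                else y ((i + 1) + (j + 1) - ((i + 1) + (j + 1))))
            rw [if_pos (Nat.zero_le _), if_neg (by omega), Nat.sub_self]
            exact h0) (by omega)
        omega

end Pool.Agent.Lib_helper61.APX
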